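import Pool.Agent.H946R3.OU

open MeasureTheory ProbabilityTheory
open scoped Real NNReal

namespace Pool.Agent.H946R3

/-- Joint law of one coordinate and the sum of all coordinates. -/
lemma joint_law (n : ℕ) (i0 : Fin n) :
    Measure.map (fun x : Fin n → ℝ => (x i0, ∑ i, x i)) (gam n) =
    Measure.map (fun p : ℝ × ℝ => (p.1 / n + p.2, p.1))
      ((gaussianReal 0 n).prod (gaussianReal 0 (Real.toNNReal (1 - 1 / n)))) := by
  have hn : (0 : ℝ) < n := by
    have := i0.pos
    exact_mod_cast this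
  have hn1 : (1 : ℝ) ≤ n := by
    have := i0.pos
    exact_mod_cast this
  let A : (Fin n → ℝ) →L[ℝ] (ℝ × ℝ) :=
    (ContinuousLinearMap.proj i0).prod (∑ i, ContinuousLinearMap.proj i)
  let B : (ℝ × ℝ) →L[ℝ] (ℝ × ℝ) :=
    (((n : ℝ)⁻¹) • ContinuousLinearMap.fst ℝ ℝ ℝ + ContinuousLinearMap.snd ℝ ℝ ℝ).prod
      (ContinuousLinearMap.fst ℝ ℝ ℝ)
  have hA : (fun x : Fin n → ℝ => (x i0, ∑ i, x i)) = A := by
    ext x <;> simp [A]
  have hB : (fun p : ℝ × ℝ => (p.1 / n + p.2, p.1)) = B := by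
    ext p
    · simp [B]; ring
    · simp [B]
  rw [hA, hB]
  have : IsFiniteMeasure (Measure.map A (gam n)) := Measure.isFiniteMeasure_map _ _
  have : IsFiniteMeasure (Measure.map B
    ((gaussianReal 0 n).prod (gaussianReal 0 (Real.toNNReal (1 - 1 / n))))) :=
    Measure.isFiniteMeasure_map _ _
  apply Measure.ext_of_charFunDual
  ext L
  rw [charFunDual_map, charFunDual_map, charFunDual_prod, charFunDual_gam,
    charFunDual_real, charFunDual_real, charFun_gaussianReal, charFun_gaussianReal,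
    ← Complex.exp_add]
  congr 1
  set a := L (1, 0) with ha
  set b := L (0, 1) with hb
  have e1 : ∀ i, (L ∘SL A) (Pi.single i 1) = (if i = i0 then a else 0) + b := by
    intro i
    have : A (Pi.single i 1) = (if i = i0 then (1 : ℝ) else 0) • ((1 : ℝ), (0 : ℝ))
        + ((0 : ℝ), (1 : ℝ)) := by
      by_cases h : i = i0
      · subst h
        ext <;> simp [A]
      · have h' : i0 ≠ i := fun hh => h hh.symm
        ext <;> simp [A, h, h', Pi.single_apply]
    rw [ContinuousLinearMap.comp_apply, this, map_add, map_smul]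
    split_ifs <;> simp [ha, hb]
  have e2 : (L ∘SL B ∘SL ContinuousLinearMap.inl ℝ ℝ ℝ) 1 = a / n + b := by
    have : B (1, 0) = (n : ℝ)⁻¹ • ((1 : ℝ), (0 : ℝ)) + ((0 : ℝ), (1 : ℝ)) := by
      ext <;> simp [B]
    simp only [ContinuousLinearMap.comp_apply, ContinuousLinearMap.inl_apply, this, map_add,
      map_smul, smul_eq_mul, ha, hb]
    ring
  have e3 : (L ∘SL B ∘SL ContinuousLinearMap.inr ℝ ℝ ℝ) 1 = a := by
    have : B (0, 1) = ((1 : ℝ), (0 : ℝ)) := by
      ext <;> simp [B]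
    simp only [ContinuousLinearMap.comp_apply, ContinuousLinearMap.inr_apply, this, ha]
  have hv : ((Real.toNNReal (1 - 1 / n) : ℝ≥0) : ℝ) = 1 - 1 / n := by
    apply Real.coe_toNNReal
    have : (1 : ℝ) / n ≤ 1 := by
      rw [div_le_one hn]; exact hn1
    linarith
  have e2' : ((L ∘SL B) ∘SL ContinuousLinearMap.inl ℝ ℝ ℝ) 1 = a / n + b := e2
  have e3' : ((L ∘SL B) ∘SL ContinuousLinearMap.inr ℝ ℝ ℝ) 1 = a := e3
  rw [e2', e3']
  simp only [e1]
  have s1 : ∑ i : Fin n, ((if i = i0 then a else 0) + b) ^ 2 = a ^ 2 + 2 * a * b + n * b ^ 2 := by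
    have : ∀ i : Fin n, ((if i = i0 then a else 0) + b) ^ 2
        = (if i = i0 then a ^ 2 + 2 * a * b else 0) + b ^ 2 := by
      intro i
      split_ifs <;> ring
    simp only [this, Finset.sum_add_distrib, Finset.sum_ite_eq', Finset.mem_univ, if_true,
      Finset.sum_const, Finset.card_univ, Fintype.card_fin, nsmul_eq_mul]
  have s2 : ∑ i : Fin n, ((((if i = i0 then a else 0) + b : ℝ) : ℂ)) ^ 2
      = ((a ^ 2 + 2 * a * b + n * b ^ 2 : ℝ) : ℂ) := by
    rw [← s1]
    simp only [Complex.ofReal_sum, Complex.ofReal_pow]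
  rw [s2]
  have hnC : (n : ℂ) ≠ 0 := by exact_mod_cast hn.ne'
  have hvC : (((Real.toNNReal (1 - 1 / n) : ℝ≥0) : ℝ) : ℂ) = 1 - 1 / n := by
    rw [hv]; push_cast; rfl
  rw [hvC]
  push_cast
  field_simp
  ring

lemma sum_law (n : ℕ) (hn : 0 < n) :
    Measure.map (fun x : Fin n → ℝ => ∑ i, x i) (gam n) = gaussianReal 0 n := by
  have h := congrArg (fun μ => Measure.map Prod.snd μ) (joint_law n ⟨0, hn⟩)
  rw [Measure.map_map measurable_snd (by fun_prop), Measure.map_map measurable_snd (by fun_prop)]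
    at h
  have e1 : (Prod.snd ∘ fun x : Fin n → ℝ => (x ⟨0, hn⟩, ∑ i, x i)) = fun x => ∑ i, x i := rfl
  have e2 : (Prod.snd ∘ fun p : ℝ × ℝ => (p.1 / n + p.2, p.1)) = Prod.fst := rfl
  rw [e1, e2, measurePreserving_fst.map_eq] at h
  exact h

lemma integral_cos_gauss (v : ℝ≥0) (t : ℝ) :
    ∫ r, Real.cos (t * r) ∂(gaussianReal 0 v) = Real.exp (-(v * t ^ 2 / 2)) := by
  have h := charFun_gaussianReal (μ := 0) (v := v) t
  rw [charFun_apply_real] at h
  have h2 := congrArg Complex.re h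
  have hint : Integrable (fun x : ℝ => Complex.exp (t * x * Complex.I)) (gaussianReal 0 v) := by
    refine Integrable.of_bound (C := 1) (by fun_prop) ?_
    filter_upwards with x
    have : (t : ℂ) * x * Complex.I = ((t * x : ℝ) : ℂ) * Complex.I := by push_cast; ring
    rw [this, Complex.norm_exp_ofReal_mul_I]
  have e1 : (∫ x : ℝ, Complex.exp (t * x * Complex.I) ∂(gaussianReal 0 v)).re
      = ∫ r, Real.cos (t * r) ∂(gaussianReal 0 v) := by
    rw [← RCLike.re_eq_complex_re, ← integral_re hint]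
    congr 1
    ext x
    have : (t : ℂ) * x * Complex.I = ((t * x : ℝ) : ℂ) * Complex.I := by push_cast; ring
    rw [this, RCLike.re_eq_complex_re, Complex.exp_ofReal_mul_I_re]
  rw [e1] at h2
  rw [h2]
  have : ((t : ℂ) * (0 : ℝ) * Complex.I - v * t ^ 2 / 2) = ((-(v * t ^ 2 / 2) : ℝ) : ℂ) := by
    push_cast; ring
  rw [this, Complex.exp_ofReal_re]

lemma integral_sin_gauss (v : ℝ≥0) (t : ℝ) :
    ∫ r, Real.sin (t * r) ∂(gaussianReal 0 v) = 0 := by
  have h := charFun_gaussianReal (μ := 0) (v := v) t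
  rw [charFun_apply_real] at h
  have h2 := congrArg Complex.im h
  have hint : Integrable (fun x : ℝ => Complex.exp (t * x * Complex.I)) (gaussianReal 0 v) := by
    refine Integrable.of_bound (C := 1) (by fun_prop) ?_
    filter_upwards with x
    have : (t : ℂ) * x * Complex.I = ((t * x : ℝ) : ℂ) * Complex.I := by push_cast; ring
    rw [this, Complex.norm_exp_ofReal_mul_I]
  have e1 : (∫ x : ℝ, Complex.exp (t * x * Complex.I) ∂(gaussianReal 0 v)).im
      = ∫ r, Real.sin (t * r) ∂(gaussianReal 0 v) := by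
    rw [← RCLike.im_eq_complex_im, ← integral_im hint]
    congr 1
    ext x
    have : (t : ℂ) * x * Complex.I = ((t * x : ℝ) : ℂ) * Complex.I := by push_cast; ring
    rw [this, RCLike.im_eq_complex_im, Complex.exp_ofReal_mul_I_im]
  rw [e1] at h2
  rw [h2]
  have : ((t : ℂ) * (0 : ℝ) * Complex.I - v * t ^ 2 / 2) = ((-(v * t ^ 2 / 2) : ℝ) : ℂ) := by
    push_cast; ring
  rw [this, Complex.exp_ofReal_im]

/-- The damping constant. -/
noncomputable def cc (n : ℕ) : ℝ := Real.exp (-(2 * π ^ 2 * (1 - 1 / n)))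

/-- Conditional formula for `E[A(S) sin(2π x_0)]`. -/
lemma integral_sum_sin (n : ℕ) (i0 : Fin n) {A : ℝ → ℝ} (hA : Measurable A) {C : ℝ}
    (bA : ∀ s, |A s| ≤ C) :
    ∫ x, A (∑ i, x i) * Real.sin (2 * π * x i0) ∂(gam n)
      = ∫ s, A s * (cc n * Real.sin (2 * π * (s / n))) ∂(gaussianReal 0 n) := by
  have hn : (0 : ℝ) < n := by
    have := i0.pos
    exact_mod_cast this
  have hn1 : (1 : ℝ) ≤ n := by
    have := i0.pos
    exact_mod_cast this
  have hv : ((Real.toNNReal (1 - 1 / n) : ℝ≥0) : ℝ) = 1 - 1 / n := by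
    apply Real.coe_toNNReal
    have : (1 : ℝ) / n ≤ 1 := by
      rw [div_le_one hn]; exact hn1
    linarith
  have hC : 0 ≤ C := (abs_nonneg _).trans (bA 0)
  have hm : Measurable (fun p : ℝ × ℝ => A p.2 * Real.sin (2 * π * p.1)) :=
    (hA.comp measurable_snd).mul (by fun_prop)
  have e1 : ∫ x, A (∑ i, x i) * Real.sin (2 * π * x i0) ∂(gam n)
      = ∫ p, A p.2 * Real.sin (2 * π * p.1)
        ∂(Measure.map (fun x : Fin n → ℝ => (x i0, ∑ i, x i)) (gam n)) := by
    rw [integral_map (by fun_prop) hm.aestronglyMeasurable]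
  rw [e1, joint_law, integral_map (by fun_prop) hm.aestronglyMeasurable]
  rw [integral_prod]
  · congr 1
    ext s
    simp only
    have e2 : ∀ r : ℝ, A s * Real.sin (2 * π * (s / n + r))
        = A s * Real.sin (2 * π * (s / n)) * Real.cos (2 * π * r)
          + A s * Real.cos (2 * π * (s / n)) * Real.sin (2 * π * r) := by
      intro r
      rw [mul_add, Real.sin_add]
      ring
    simp_rw [e2]
    rw [integral_add, integral_const_mul, integral_const_mul, integral_cos_gauss,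
      integral_sin_gauss, hv, cc]
    · have : -((1 - 1 / (n : ℝ)) * (2 * π) ^ 2 / 2) = -(2 * π ^ 2 * (1 - 1 / n)) := by ring
      rw [this]
      ring
    · refine Integrable.const_mul ?_ _
      refine Integrable.of_bound (C := 1) (by fun_prop) ?_
      filter_upwards with x
      exact Real.abs_cos_le_one _
    · refine Integrable.const_mul ?_ _
      refine Integrable.of_bound (C := 1) (by fun_prop) ?_
      filter_upwards with x
      exact Real.abs_sin_le_one _
  · refine Integrable.of_bound (C := C * 1) ?_ ?_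
    · refine Measurable.aestronglyMeasurable ?_
      exact hm.comp (by fun_prop)
    · filter_upwards with p
      rw [norm_mul, Real.norm_eq_abs, Real.norm_eq_abs]
      exact mul_le_mul (bA _) (Real.abs_sin_le_one _) (abs_nonneg _) hC

lemma integral_sum (n : ℕ) (hn : 0 < n) {A : ℝ → ℝ} (hA : Measurable A) :
    ∫ x, A (∑ i, x i) ∂(gam n) = ∫ s, A s ∂(gaussianReal 0 n) := by
  rw [← sum_law n hn, integral_map (by fun_prop) hA.aestronglyMeasurable]

/-- The smoothed profile. -/
noncomputable def GG (n : ℕ) (ρ : ℝ) (A : ℝ → ℝ) (s : ℝ) : ℝ :=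
  ∫ y, A (ρ * s + y) ∂(gaussianReal 0 (Real.toNNReal (n * (1 - ρ ^ 2))))

lemma Q_sum (n : ℕ) (hn : 0 < n) {ρ : ℝ} (h1 : ρ ^ 2 ≤ 1) {f : (Fin n → ℝ) → ℝ} {A : ℝ → ℝ}
    (hf : Measurable f) (hA : Measurable A) {Cf CA : ℝ} (bf : ∀ x, |f x| ≤ Cf)
    (bA : ∀ x, |A x| ≤ CA) :
    Q n ρ f (fun x => A (∑ i, x i)) = ∫ x, f x * GG n ρ A (∑ i, x i) ∂(gam n) := by
  have hm : Measurable (fun x : Fin n → ℝ => A (∑ i, x i)) := hA.comp (by fun_prop)
  rw [Q, integral_prod _ (integrable_Q n ρ hf hm bf (fun x => bA _))]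
  congr 1
  ext x
  simp only
  rw [integral_const_mul]
  congr 1
  have e1 : ∀ y : Fin n → ℝ, A (∑ i, (ρ • x + √(1 - ρ ^ 2) • y) i)
      = (fun s => A (ρ * ∑ i, x i + √(1 - ρ ^ 2) * s)) (∑ i, y i) := by
    intro y
    simp [Finset.sum_add_distrib, Finset.mul_sum]
  simp_rw [e1]
  have hmm : Measurable (fun s => A (ρ * ∑ i, x i + √(1 - ρ ^ 2) * s)) := hA.comp (by fun_prop)
  have e2 := integral_sum n hn hmm
  rw [e2, GG]
  have e3 : gaussianReal 0 (Real.toNNReal (n * (1 - ρ ^ 2)))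
      = Measure.map (fun s => √(1 - ρ ^ 2) * s) (gaussianReal 0 n) := by
    rw [gaussianReal_map_const_mul]
    congr 1
    · simp
    · ext
      rw [Real.coe_toNNReal _ (mul_nonneg (by positivity) (by linarith))]
      push_cast
      rw [Real.sq_sqrt (by linarith)]
      ring
  rw [e3, integral_map (by fun_prop)]
  exact (hA.comp (by fun_prop)).aestronglyMeasurable

end Pool.Agent.H946R3
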