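import Pool.Agent.H946R3.Theta3
import Pool.Agent.H946R3.Laws

open MeasureTheory ProbabilityTheory
open scoped Real NNReal

namespace Pool.Agent.H946R3

/-- The square wave: `1` where `sin (π u) ≥ 0`, `-1` elsewhere. -/
noncomputable def sq (u : ℝ) : ℝ := if 0 ≤ Real.sin (π * u) then 1 else -1

lemma measurable_sq : Measurable sq := by
  unfold sq
  refine Measurable.ite ?_ measurable_const measurable_const
  exact measurableSet_le measurable_const (by fun_prop)

lemma abs_sq_le (u : ℝ) : |sq u| ≤ 1 := by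
  unfold sq; split_ifs <;> simp

lemma sq_mul_self (u : ℝ) : sq u * sq u = 1 := by
  unfold sq; split_ifs <;> simp

/-- On `(m, m+1)` the square wave equals `(-1)^m`. -/
lemma sq_add_int {x : ℝ} (h0 : 0 < x) (h1 : x < 1) (m : ℤ) :
    sq (x + m) = ((Int.negOnePow m : ℤˣ) : ℤ) := by
  have hs : 0 < Real.sin (π * x) := by
    apply Real.sin_pos_of_pos_of_lt_pi
    · positivity
    · have := mul_lt_mul_of_pos_left h1 Real.pi_pos
      linarith
  have e : Real.sin (π * (x + m)) = ((Int.negOnePow m : ℤˣ) : ℤ) * Real.sin (π * x) := by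
    rw [mul_add, mul_comm π (m : ℝ), Real.sin_add_int_mul_pi]
    rcases Int.even_or_odd m with hm | hm
    · rw [Int.negOnePow_even m hm, hm.neg_one_zpow]; simp
    · rw [Int.negOnePow_odd m hm, hm.neg_one_zpow]; simp
  unfold sq
  rw [e]
  rcases Int.even_or_odd m with hm | hm
  · rw [Int.negOnePow_even m hm]
    simp [hs.le]
  · rw [Int.negOnePow_odd m hm]
    have : ¬ (0 ≤ (((-1 : ℤˣ) : ℤ) : ℝ) * Real.sin (π * x)) := by
      push_cast
      linarith
    rw [if_neg this]
    simp

lemma negOnePow_eq_cos (m : ℤ) : (((Int.negOnePow m : ℤˣ) : ℤ) : ℝ) = Real.cos (π * m) := by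
  rcases Int.even_or_odd m with hm | hm
  · rw [Int.negOnePow_even m hm]
    obtain ⟨k, rfl⟩ := hm
    have : π * ((k + k : ℤ) : ℝ) = (k : ℝ) * (2 * π) := by push_cast; ring
    rw [this, Real.cos_int_mul_two_pi]; simp
  · rw [Int.negOnePow_odd m hm]
    obtain ⟨k, rfl⟩ := hm
    have : π * ((2 * k + 1 : ℤ) : ℝ) = (k : ℝ) * (2 * π) + π := by push_cast; ring
    rw [this, Real.cos_int_mul_two_pi_add_pi]; simp

end Pool.Agent.H946R3
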