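import Pool.Agent.H946R3.Fourier

open MeasureTheory ProbabilityTheory
open scoped Real NNReal

namespace Pool.Agent.H946R3

/-- The Gaussian smoothing of the square wave. -/
noncomputable def Gt (v : ℝ≥0) (u : ℝ) : ℝ := ∫ y, sq (u + y) ∂(gaussianReal 0 v)

/-- Unfolding of an integral against the square wave over the line. -/
lemma hasSum_sq_integral {q : ℝ → ℝ} (hq : Integrable q) :
    HasSum (fun m : ℤ => ∫ x in (0 : ℝ)..1, Real.cos (π * m) * q (x + m))
      (∫ z, sq z * q z) := by
  have hint : Integrable (fun z => sq z * q z) := by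
    refine hq.bdd_mul (c := 1) measurable_sq.aestronglyMeasurable ?_
    filter_upwards with z
    rw [Real.norm_eq_abs]
    exact abs_sq_le z
  have h := hint.hasSum_intervalIntegral_comp_add_int
  refine h.congr_fun fun m => ?_
  rw [intervalIntegral.integral_of_le zero_le_one, intervalIntegral.integral_of_le zero_le_one,
    integral_Ioc_eq_integral_Ioo, integral_Ioc_eq_integral_Ioo]
  apply setIntegral_congr_fun measurableSet_Ioo
  intro x hx
  simp only
  rw [sq_add_int hx.1 hx.2, negOnePow_eq_cos]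

lemma Gt_eq (v : ℝ≥0) (hv : v ≠ 0) (u : ℝ) :
    Gt v u = ∫ z, sq z * gaussianPDFReal 0 v (z - u) := by
  rw [Gt, integral_gaussianReal_eq_integral_smul hv,
    ← integral_sub_right_eq_self (fun y => gaussianPDFReal 0 v y • sq (u + y)) u]
  congr 1
  ext z
  simp only [smul_eq_mul]
  rw [mul_comm, show u + (z - u) = z by ring]

lemma pdf_eq (v : ℝ≥0) (x : ℝ) :
    gaussianPDFReal 0 v x = (√(2 * π * v))⁻¹ * Real.exp (-(1 / (2 * (v : ℝ))) * x ^ 2) := by
  rw [gaussianPDFReal]
  congr 1
  congr 1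
  rw [sub_zero]
  ring

lemma integral_cos_unit (J : ℤ) (hJ : Odd J) (u : ℝ) :
    ∫ x in (0 : ℝ)..1, Real.cos (π * (x - u) * J) = 2 / (π * J) * Real.sin (π * J * u) := by
  have hJ0 : (J : ℝ) ≠ 0 := by
    have : J ≠ 0 := by rintro rfl; simp at hJ
    exact_mod_cast this
  have hπ : π ≠ 0 := Real.pi_ne_zero
  have hd : ∀ x ∈ Set.uIcc (0 : ℝ) 1, HasDerivAt (fun x => Real.sin (π * (x - u) * J) / (π * J))
      (Real.cos (π * (x - u) * J)) x := by
    intro x _
    have h1 : HasDerivAt (fun x : ℝ => π * (x - u) * J) (π * J) x := by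
      have := (((hasDerivAt_id x).sub_const u).const_mul π).mul_const (J : ℝ)
      simpa using this
    have h2 := (h1.sin).div_const (π * J)
    rw [mul_div_assoc, div_self (mul_ne_zero hπ hJ0), mul_one] at h2
    exact h2
  rw [intervalIntegral.integral_eq_sub_of_hasDerivAt hd]
  · have e1 : Real.sin (π * (1 - u) * J) = Real.sin (π * J * u) := by
      have : π * (1 - u) * J = -(π * J * u) + J * π := by ring
      rw [this, Real.sin_add_int_mul_pi, hJ.neg_one_zpow, Real.sin_neg]
      ring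
    have e2 : Real.sin (π * (0 - u) * J) = -Real.sin (π * J * u) := by
      have : π * (0 - u) * J = -(π * J * u) := by ring
      rw [this, Real.sin_neg]
    rw [e1, e2]
    field_simp
    ring
  · apply Continuous.intervalIntegrable
    fun_prop

/-- Fourier expansion of the smoothed square wave, over all integers. -/
lemma Gt_hasSum (v : ℝ≥0) (hv : v ≠ 0) (u : ℝ) :
    HasSum (fun j : ℤ => Real.exp (-(2 * π ^ 2 * v) * ((j : ℝ) + 1 / 2) ^ 2)
      * (2 / (π * ((2 * j + 1 : ℤ) : ℝ)) * Real.sin (π * ((2 * j + 1 : ℤ) : ℝ) * u))) (Gt v u) := by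
  have hv0 : (0 : ℝ) < v := by
    have : 0 < v := pos_iff_ne_zero.2 hv
    exact_mod_cast this
  have hs0 : (0 : ℝ) < √(2 * π * v) := Real.sqrt_pos.2 (by positivity)
  have hc : (0 : ℝ) < 1 / (2 * (v : ℝ)) := by positivity
  have hint : Integrable (fun z => gaussianPDFReal 0 v (z - u)) := by
    have := (integrable_gaussianPDFReal 0 v).comp_sub_right u
    exact this
  have h1 := hasSum_sq_integral hint
  rw [← Gt_eq v hv] at h1
  -- swap 1
  have sw1 : HasSum (fun m : ℤ => ∫ x in (0 : ℝ)..1,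
      Real.cos (π * m) * gaussianPDFReal 0 v (x + m - u))
      (∫ x in (0 : ℝ)..1, ∑' j : ℤ, Real.exp (-(2 * π ^ 2 * v) * ((j : ℝ) + 1 / 2) ^ 2)
        * Real.cos (π * (x - u) * ((2 * j + 1 : ℤ) : ℝ))) := by
    refine intervalIntegral.hasSum_integral_of_dominated_convergence
      (bound := fun m _ => (√(2 * π * v))⁻¹ *
        (Real.exp (1 / (2 * (v : ℝ)) * ((1 + |u|) + 1 / 4))
          * Real.exp (-(1 / (2 * (v : ℝ))) * |(m : ℝ)|))) ?_ ?_ ?_ ?_ ?_
    · intro m
      refine Measurable.aestronglyMeasurable ?_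
      refine Measurable.mul measurable_const ?_
      exact (measurable_gaussianPDFReal 0 v).comp (by fun_prop)
    · intro m
      filter_upwards with x hx
      rw [Set.uIoc_of_le zero_le_one] at hx
      rw [norm_mul, pdf_eq]
      have e1 : ‖Real.cos (π * m)‖ ≤ 1 := Real.abs_cos_le_one _
      have e2 : ‖(√(2 * π * v))⁻¹ * Real.exp (-(1 / (2 * (v : ℝ))) * (x + m - u) ^ 2)‖
          = (√(2 * π * v))⁻¹ * Real.exp (-(1 / (2 * (v : ℝ))) * ((m : ℝ) + (x - u)) ^ 2) := by
        rw [Real.norm_of_nonneg (by positivity), show x + m - u = (m : ℝ) + (x - u) by ring]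
      rw [e2]
      have e3 := gauss_le_exp_abs hc (x - u) m
      have e4 : |x - u| ≤ 1 + |u| := by
        have h1 := abs_sub x u
        have h2 : |x| ≤ 1 := by rw [abs_le]; constructor <;> linarith [hx.1, hx.2]
        linarith
      have e5 : Real.exp (1 / (2 * (v : ℝ)) * (|x - u| + 1 / 4))
          ≤ Real.exp (1 / (2 * (v : ℝ)) * ((1 + |u|) + 1 / 4)) := by
        apply Real.exp_le_exp.2
        apply mul_le_mul_of_nonneg_left _ hc.le
        linarith
      calc _ ≤ 1 * ((√(2 * π * v))⁻¹ * Real.exp (-(1 / (2 * (v : ℝ))) * ((m : ℝ) + (x - u)) ^ 2)) :=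
            mul_le_mul_of_nonneg_right e1 (by positivity)
        _ = (√(2 * π * v))⁻¹ * Real.exp (-(1 / (2 * (v : ℝ))) * ((m : ℝ) + (x - u)) ^ 2) := one_mul _
        _ ≤ (√(2 * π * v))⁻¹ * (Real.exp (1 / (2 * (v : ℝ)) * (|x - u| + 1 / 4))
              * Real.exp (-(1 / (2 * (v : ℝ))) * |(m : ℝ)|)) :=
            mul_le_mul_of_nonneg_left e3 (by positivity)
        _ ≤ _ := by
            apply mul_le_mul_of_nonneg_left _ (by positivity)
            exact mul_le_mul_of_nonneg_right e5 (by positivity)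
    · filter_upwards with x hx
      exact ((summable_exp_abs hc).mul_left _).mul_left _
    · exact intervalIntegrable_const
    · filter_upwards with x hx
      have ht := theta_real hv0 (x - u) 1
      have hsum : Summable fun l : ℤ => Real.exp (-(1 / (2 * (v : ℝ))) * ((l : ℝ) + (x - u)) ^ 2)
          * Real.cos (π * 1 * l) := by
        refine Summable.of_norm_bounded (summable_gauss hc (x - u)) fun l => ?_
        rw [norm_mul, Real.norm_eq_abs, Real.norm_eq_abs, Real.abs_exp]
        exact mul_le_of_le_one_right (Real.exp_pos _).le (Real.abs_cos_le_one _)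
      have hh := hsum.hasSum
      rw [ht] at hh
      have hh2 := hh.mul_left (√(2 * π * v))⁻¹
      rw [← mul_assoc, inv_mul_cancel₀ hs0.ne', one_mul] at hh2
      have e6 : ∑' j : ℤ, Real.exp (-(2 * π ^ 2 * v) * ((j : ℝ) + 1 / 2) ^ 2)
        * Real.cos (π * (x - u) * ((2 * j + 1 : ℤ) : ℝ))
          = ∑' j : ℤ, Real.exp (-(2 * π ^ 2 * v) * ((j : ℝ) + 1 / 2) ^ 2)
        * Real.cos (π * (x - u) * (2 * j + 1)) := by
        congr 1
        ext j
        push_cast
        rfl
      rw [e6]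
      refine hh2.congr_fun fun l => ?_
      rw [pdf_eq, show x + l - u = (l : ℝ) + (x - u) by ring, mul_one]
      ring
  have h2 := h1.unique sw1
  rw [h2]
  have sw2 := intervalIntegral.hasSum_integral_of_dominated_convergence (μ := volume)
      (a := 0) (b := 1) (F := fun (j : ℤ) (x : ℝ) =>
        Real.exp (-(2 * π ^ 2 * v) * ((j : ℝ) + 1 / 2) ^ 2)
        * Real.cos (π * (x - u) * ((2 * j + 1 : ℤ) : ℝ)))
      (f := fun x => ∑' j : ℤ, Real.exp (-(2 * π ^ 2 * v) * ((j : ℝ) + 1 / 2) ^ 2)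
        * Real.cos (π * (x - u) * ((2 * j + 1 : ℤ) : ℝ)))
      (bound := fun j _ => Real.exp (-(2 * π ^ 2 * v) * ((j : ℝ) + 1 / 2) ^ 2)) ?_ ?_ ?_ ?_ ?_
  · refine sw2.congr_fun fun j => ?_
    rw [intervalIntegral.integral_const_mul, integral_cos_unit _ ⟨j, rfl⟩]
  · intro j
    apply Continuous.aestronglyMeasurable
    fun_prop
  · intro j
    filter_upwards with x _
    rw [norm_mul, Real.norm_eq_abs, Real.norm_eq_abs, Real.abs_exp]
    exact mul_le_of_le_one_right (Real.exp_pos _).le (Real.abs_cos_le_one _)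
  · filter_upwards with x _
    exact summable_gauss (by positivity) (1 / 2)
  · exact intervalIntegrable_const
  · filter_upwards with x _
    apply Summable.hasSum
    refine Summable.of_norm_bounded (summable_gauss (c := 2 * π ^ 2 * v) (by positivity) (1 / 2))
      fun j => ?_
    rw [norm_mul, Real.norm_eq_abs, Real.norm_eq_abs, Real.abs_exp]
    exact mul_le_of_le_one_right (Real.exp_pos _).le (Real.abs_cos_le_one _)

/-- Fourier expansion of the smoothed square wave, over the naturals. -/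
lemma Gt_hasSum_nat (v : ℝ≥0) (hv : v ≠ 0) (u : ℝ) :
    HasSum (fun i : ℕ => 4 / (π * (2 * i + 1)) * Real.exp (-(π ^ 2 * v / 2) * (2 * i + 1) ^ 2)
      * Real.sin (π * (2 * i + 1) * u)) (Gt v u) := by
  have h := (Gt_hasSum v hv u)
  have h2 := h.nat_add_neg_add_one
  refine h2.congr_fun fun i => ?_
  have e1 : ((2 * -((i : ℤ) + 1) + 1 : ℤ) : ℝ) = -(2 * i + 1) := by push_cast; ring
  have e2 : ((2 * (i : ℤ) + 1 : ℤ) : ℝ) = 2 * i + 1 := by push_cast; ring
  have e3 : -(2 * π ^ 2 * (v : ℝ)) * (((i : ℤ) : ℝ) + 1 / 2) ^ 2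
      = -(π ^ 2 * v / 2) * (2 * i + 1) ^ 2 := by push_cast; ring
  have e4 : -(2 * π ^ 2 * (v : ℝ)) * (((-((i : ℤ) + 1) : ℤ) : ℝ) + 1 / 2) ^ 2
      = -(π ^ 2 * v / 2) * (2 * i + 1) ^ 2 := by push_cast; ring
  rw [e1, e2, e3, e4]
  have e5 : π * -(2 * (i : ℝ) + 1) * u = -(π * (2 * i + 1) * u) := by ring
  rw [e5, Real.sin_neg]
  field_simp
  ring

end Pool.Agent.H946R3
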