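import Pool.Agent.H946R3.WNeg

open MeasureTheory ProbabilityTheory
open scoped Real NNReal

namespace Pool.Agent.H946R3

/-- the slab indicator -/
noncomputable def phi (δ : ℝ) (s : ℝ) : ℝ := if Int.fract s < δ then 1 else 0

lemma measurable_phi (δ : ℝ) : Measurable (phi δ) := by
  unfold phi
  refine Measurable.ite ?_ measurable_const measurable_const
  exact measurableSet_lt measurable_fract measurable_const

lemma phi_nonneg (δ s : ℝ) : 0 ≤ phi δ s := by unfold phi; split_ifs <;> simp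

lemma phi_le_one (δ s : ℝ) : phi δ s ≤ 1 := by unfold phi; split_ifs <;> simp

lemma abs_phi_le (δ s : ℝ) : |phi δ s| ≤ 1 := by
  rw [abs_of_nonneg (phi_nonneg δ s)]; exact phi_le_one δ s

/-- The line integral. -/
lemma integral_phi_sq_psi (n : ℕ) (hn : 0 < n) (ρ : ℝ) (v : ℝ≥0) (hv : v ≠ 0) {δ : ℝ}
    (hδ0 : 0 < δ) (hδ1 : δ < 1) :
    ∫ z, sq z * (phi δ z * psi n ρ v z) = ∫ x in (0 : ℝ)..δ, FF n ρ v x := by
  have hq : Integrable (fun z => phi δ z * psi n ρ v z) := by
    refine (integrable_psi n hn ρ v hv).bdd_mul (c := 1) (measurable_phi δ).aestronglyMeasurable ?_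
    filter_upwards with z
    rw [Real.norm_eq_abs]
    exact abs_phi_le δ z
  have h1 := hasSum_sq_integral hq
  have h2 : HasSum (fun m : ℤ => ∫ x in (0 : ℝ)..δ, Real.cos (π * m) * psi n ρ v (x + m))
      (∫ z, sq z * (phi δ z * psi n ρ v z)) := by
    refine h1.congr_fun fun m => ?_
    have hI1 : IntervalIntegrable
        (fun x => Real.cos (π * m) * (phi δ (x + m) * psi n ρ v (x + m))) volume 0 δ := by
      have := (hq.comp_add_right (m : ℝ)).const_mul (Real.cos (π * m))
      exact this.intervalIntegrable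
    have hI2 : IntervalIntegrable
        (fun x => Real.cos (π * m) * (phi δ (x + m) * psi n ρ v (x + m))) volume δ 1 := by
      have := (hq.comp_add_right (m : ℝ)).const_mul (Real.cos (π * m))
      exact this.intervalIntegrable
    rw [← intervalIntegral.integral_add_adjacent_intervals hI1 hI2]
    have z1 : ∫ x in δ..1, Real.cos (π * m) * (phi δ (x + m) * psi n ρ v (x + m)) = 0 := by
      rw [intervalIntegral.integral_of_le hδ1.le, integral_Ioc_eq_integral_Ioo]
      apply setIntegral_eq_zero_of_forall_eq_zero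
      intro x hx
      have : phi δ (x + m) = 0 := by
        unfold phi
        rw [Int.fract_add_intCast, Int.fract_eq_self.2 ⟨by linarith [hx.1], hx.2⟩, if_neg]
        linarith [hx.1]
      rw [this]
      ring
    have z2 : ∫ x in (0 : ℝ)..δ, Real.cos (π * m) * (phi δ (x + m) * psi n ρ v (x + m))
        = ∫ x in (0 : ℝ)..δ, Real.cos (π * m) * psi n ρ v (x + m) := by
      rw [intervalIntegral.integral_of_le hδ0.le, intervalIntegral.integral_of_le hδ0.le,
        integral_Ioc_eq_integral_Ioo, integral_Ioc_eq_integral_Ioo]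
      apply setIntegral_congr_fun measurableSet_Ioo
      intro x hx
      have : phi δ (x + m) = 1 := by
        unfold phi
        rw [Int.fract_add_intCast, Int.fract_eq_self.2 ⟨hx.1.le, by linarith [hx.2]⟩, if_pos]
        exact hx.2
      simp only
      rw [this]
      ring
    rw [z1, z2, add_zero]
  have h3 := intervalIntegral.hasSum_integral_of_dominated_convergence (μ := volume)
      (a := 0) (b := δ) (F := fun (m : ℤ) (x : ℝ) => Real.cos (π * m) * psi n ρ v (x + m))
      (f := FF n ρ v)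
      (bound := fun m _ => 2 * ((√(2 * π * n))⁻¹ *
      (Real.exp (1 / (2 * (n : ℝ)) * (1 + 1 / 4))
        * Real.exp (-(1 / (2 * (n : ℝ))) * |(m : ℝ)|)))) ?_ ?_ ?_ ?_ ?_
  · exact h2.unique h3
  · intro m
    exact (continuous_const.mul ((continuous_psi n ρ v hv).comp
      (by fun_prop))).aestronglyMeasurable
  · intro m
    filter_upwards with x hx
    rw [Set.uIoc_of_le hδ0.le] at hx
    apply psi_bound n hn ρ v m
    rw [abs_le]
    constructor <;> linarith [hx.1, hx.2]
  · filter_upwards with x _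
    exact summable_psi_bound n hn
  · exact intervalIntegrable_const
  · filter_upwards with x hx
    rw [Set.uIoc_of_le hδ0.le] at hx
    apply Summable.hasSum
    refine Summable.of_norm_bounded (summable_psi_bound n hn) fun m => ?_
    apply psi_bound n hn ρ v m
    rw [abs_le]
    constructor <;> linarith [hx.1, hx.2]

/-- The weight. -/
noncomputable def wt (n : ℕ) (i0 : Fin n) (δ : ℝ) (x : Fin n → ℝ) : ℝ :=
  phi δ (∑ i, x i) * (1 + Real.sin (2 * π * x i0))
    + phi δ (-∑ i, x i) * (1 - Real.sin (2 * π * x i0))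

lemma measurable_wt (n : ℕ) (i0 : Fin n) (δ : ℝ) : Measurable (wt n i0 δ) := by
  unfold wt
  exact (((measurable_phi δ).comp (by fun_prop)).mul (by fun_prop)).add
    (((measurable_phi δ).comp (by fun_prop)).mul (by fun_prop))

lemma wt_nonneg (n : ℕ) (i0 : Fin n) (δ : ℝ) (x : Fin n → ℝ) : 0 ≤ wt n i0 δ x := by
  unfold wt
  have h1 := Real.neg_one_le_sin (2 * π * x i0)
  have h2 := Real.sin_le_one (2 * π * x i0)
  have h3 := phi_nonneg δ (∑ i, x i)
  have h4 := phi_nonneg δ (-∑ i, x i)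
  have : 0 ≤ 1 + Real.sin (2 * π * x i0) := by linarith
  have : 0 ≤ 1 - Real.sin (2 * π * x i0) := by linarith
  positivity

lemma wt_le (n : ℕ) (i0 : Fin n) (δ : ℝ) (x : Fin n → ℝ) : wt n i0 δ x ≤ 4 := by
  unfold wt
  have h1 := Real.neg_one_le_sin (2 * π * x i0)
  have h2 := Real.sin_le_one (2 * π * x i0)
  have h3 := phi_nonneg δ (∑ i, x i)
  have h4 := phi_nonneg δ (-∑ i, x i)
  have h5 := phi_le_one δ (∑ i, x i)
  have h6 := phi_le_one δ (-∑ i, x i)
  have a1 : phi δ (∑ i, x i) * (1 + Real.sin (2 * π * x i0)) ≤ 1 * 2 :=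
    mul_le_mul h5 (by linarith) (by linarith) (by norm_num)
  have a2 : phi δ (-∑ i, x i) * (1 - Real.sin (2 * π * x i0)) ≤ 1 * 2 :=
    mul_le_mul h6 (by linarith) (by linarith) (by norm_num)
  linarith

lemma wt_sub_single (n : ℕ) (i0 : Fin n) (δ : ℝ) (i : Fin n) (x : Fin n → ℝ) :
    wt n i0 δ (x - Pi.single i 1) = wt n i0 δ x := by
  unfold wt
  have e1 : ∑ j, (x - (Pi.single i (1 : ℝ) : Fin n → ℝ)) j = ∑ j, x j - 1 := by
    simp [Finset.sum_sub_distrib]
  have e2 : Real.sin (2 * π * (x - (Pi.single i (1 : ℝ) : Fin n → ℝ)) i0)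
      = Real.sin (2 * π * x i0) := by
    by_cases h : i0 = i
    · subst h
      simp only [Pi.sub_apply, Pi.single_eq_same]
      rw [show 2 * π * (x i0 - 1) = 2 * π * x i0 - 2 * π by ring, Real.sin_sub_two_pi]
    · simp [h]
  have e3 : ∀ s : ℝ, phi δ (s - 1) = phi δ s := by
    intro s; unfold phi; rw [Int.fract_sub_one]
  have e4 : ∀ s : ℝ, phi δ (s + 1) = phi δ s := by
    intro s; unfold phi; rw [Int.fract_add_one]
  rw [e1, e2, e3, show -(∑ j, x j - 1) = -∑ j, x j + 1 by ring, e4]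

lemma wt_neg (n : ℕ) (i0 : Fin n) (δ : ℝ) (x : Fin n → ℝ) :
    wt n i0 δ (-x) = wt n i0 δ x := by
  unfold wt
  have e1 : ∑ j, (-x) j = -∑ j, x j := by simp
  have e2 : Real.sin (2 * π * (-x) i0) = -Real.sin (2 * π * x i0) := by
    rw [Pi.neg_apply, show 2 * π * -x i0 = -(2 * π * x i0) by ring, Real.sin_neg]
  rw [e1, e2, neg_neg]
  ring

lemma volume_sum_eq (n : ℕ) (hn : 0 < n) (c : ℝ) :
    volume {x : Fin n → ℝ | ∑ i, x i = c} = 0 := by
  let f : (Fin n → ℝ) →ₗ[ℝ] ℝ := ∑ i, LinearMap.proj i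
  have hf : ∀ x, f x = ∑ i, x i := by intro x; simp [f]
  have hker : LinearMap.ker f ≠ ⊤ := by
    intro h
    have : f (Pi.single ⟨0, hn⟩ 1) = 0 := by
      rw [← LinearMap.mem_ker, h]; trivial
    rw [hf] at this
    simp at this
  have h0 : volume ((LinearMap.ker f : Submodule ℝ (Fin n → ℝ)) : Set (Fin n → ℝ)) = 0 :=
    Measure.addHaar_submodule _ _ hker
  set p : Fin n → ℝ := Pi.single ⟨0, hn⟩ (-c) with hp
  have e : {x : Fin n → ℝ | ∑ i, x i = c}
      = (fun x => x + p) ⁻¹' ((LinearMap.ker f : Submodule ℝ (Fin n → ℝ)) : Set (Fin n → ℝ)) := by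
    ext x
    have h1 : f (x + p) = ∑ i, x i + ∑ i, p i := by rw [map_add, hf, hf]
    have h2 : ∑ i, p i = -c := by simp [hp]
    change ∑ i, x i = c ↔ f (x + p) = 0
    rw [h1, h2]
    constructor <;> intro h <;> linarith
  rw [e, measure_preimage_add_right]
  exact h0

lemma ae_sin_ne_zero (n : ℕ) (hn : 0 < n) :
    ∀ᵐ x : Fin n → ℝ, Real.sin (π * ∑ i, x i) ≠ 0 := by
  have h : ∀ m : ℤ, ∀ᵐ x : Fin n → ℝ, ∑ i, x i ≠ m := by
    intro m
    rw [ae_iff]
    simp only [ne_eq, not_not]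
    exact volume_sum_eq n hn m
  filter_upwards [ae_all_iff.2 h] with x hx
  intro hs
  rw [Real.sin_eq_zero_iff] at hs
  obtain ⟨m, hm⟩ := hs
  apply hx m
  have : π * (∑ i, x i - m) = 0 := by linarith
  rcases mul_eq_zero.1 this with h1 | h1
  · exact absurd h1 Real.pi_ne_zero
  · linarith

lemma ae_sin_ne_zero_gam (n : ℕ) (hn : 0 < n) :
    ∀ᵐ x ∂(gam n), Real.sin (π * ∑ i, x i) ≠ 0 := by
  have hn0 : (n : ℝ≥0) ≠ 0 := by exact_mod_cast hn.ne'
  have h1 : ∀ᵐ s ∂(gaussianReal 0 (n : ℝ≥0)), Real.sin (π * s) ≠ 0 := by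
    apply (gaussianReal_absolutelyContinuous 0 hn0).ae_le
    have hc : (Set.range (fun m : ℤ => (m : ℝ))).Countable := Set.countable_range _
    have h0 : ∀ᵐ s : ℝ, s ∉ Set.range (fun m : ℤ => (m : ℝ)) :=
      measure_eq_zero_iff_ae_notMem.1 (hc.measure_zero _)
    filter_upwards [h0] with s hs hsin
    apply hs
    rw [Real.sin_eq_zero_iff] at hsin
    obtain ⟨m, hm⟩ := hsin
    refine ⟨m, ?_⟩
    have : π * (s - m) = 0 := by linarith
    rcases mul_eq_zero.1 this with h1 | h1
    · exact absurd h1 Real.pi_ne_zero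
    · simp only; linarith
  rw [← sum_law n hn] at h1
  exact ae_of_ae_map (f := fun x : Fin n → ℝ => ∑ i, x i)
    (p := fun s => Real.sin (π * s) ≠ 0) (by fun_prop) h1

end Pool.Agent.H946R3
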