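import Pool.Agent.H946R3.Main

open MeasureTheory ProbabilityTheory
open scoped Real NNReal

namespace Pool.Agent.H946R3

lemma sq_neg {u : ℝ} (h : Real.sin (π * u) ≠ 0) : sq (-u) = -sq u := by
  unfold sq
  have e : Real.sin (π * -u) = -Real.sin (π * u) := by
    rw [show π * -u = -(π * u) by ring, Real.sin_neg]
  rw [e]
  rcases lt_or_gt_of_ne h with h1 | h1
  · rw [if_pos (by linarith), if_neg (by linarith)]; norm_num
  · rw [if_neg (by linarith), if_pos (by linarith)]

lemma gam_neg (n : ℕ) : Measure.map (fun x : Fin n → ℝ => -x) (gam n) = gam n := by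
  unfold gam
  have h : MeasurePreserving (fun (x : Fin n → ℝ) (i : Fin n) => -(x i))
      (Measure.pi fun _ : Fin n => gaussianReal 0 1)
      (Measure.pi fun _ : Fin n => gaussianReal 0 1) := by
    refine measurePreserving_pi _ _ fun i => ⟨measurable_neg, ?_⟩
    have := gaussianReal_map_neg (μ := 0) (v := 1)
    rw [neg_zero] at this
    exact this
  exact h.map_eq

lemma integral_neg_gam (n : ℕ) {f : (Fin n → ℝ) → ℝ} (hf : Measurable f) :
    ∫ x, f (-x) ∂(gam n) = ∫ x, f x ∂(gam n) := by
  conv_rhs => rw [← gam_neg n]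
  rw [integral_map (by fun_prop) hf.aestronglyMeasurable]

/-- The integrand `g(x) * G(S x)`. -/
noncomputable def hint (n : ℕ) (ρ : ℝ) (v : ℝ≥0) (x : Fin n → ℝ) : ℝ :=
  sq (∑ i, x i) * Gt v (ρ * ∑ i, x i)

lemma measurable_hint (n : ℕ) (ρ : ℝ) (v : ℝ≥0) (hv : v ≠ 0) : Measurable (hint n ρ v) := by
  unfold hint
  exact (measurable_sq.comp (by fun_prop)).mul ((continuous_Gt v hv).measurable.comp (by fun_prop))

lemma abs_hint_le (n : ℕ) (ρ : ℝ) (v : ℝ≥0) (x : Fin n → ℝ) : |hint n ρ v x| ≤ 1 := by
  unfold hint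
  rw [abs_mul]
  exact mul_le_one₀ (abs_sq_le _) (abs_nonneg _) (abs_Gt_le _ _)

lemma hint_neg (n : ℕ) (ρ : ℝ) (v : ℝ≥0) (hv : v ≠ 0) {x : Fin n → ℝ}
    (hx : Real.sin (π * ∑ i, x i) ≠ 0) : hint n ρ v (-x) = hint n ρ v x := by
  unfold hint
  have e1 : ∑ j, (-x) j = -∑ j, x j := by simp
  rw [e1, sq_neg hx, show ρ * -∑ j, x j = -(ρ * ∑ j, x j) by ring, Gt_neg v hv]
  ring

/-- The first half of the weighted integral. -/
lemma half_integral (n : ℕ) (hn : 0 < n) (i0 : Fin n) (ρ : ℝ) (v : ℝ≥0) (hv : v ≠ 0) {δ : ℝ}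
    (hδ0 : 0 < δ) (hδ1 : δ < 1) :
    ∫ x, phi δ (∑ i, x i) * (1 + Real.sin (2 * π * x i0)) * hint n ρ v x ∂(gam n)
      = ∫ x in (0 : ℝ)..δ, FF n ρ v x := by
  have hn0 : (n : ℝ≥0) ≠ 0 := by exact_mod_cast hn.ne'
  set A : ℝ → ℝ := fun s => phi δ s * (sq s * Gt v (ρ * s)) with hA
  have mA : Measurable A := (measurable_phi δ).mul
    (measurable_sq.mul ((continuous_Gt v hv).measurable.comp (by fun_prop)))
  have bA : ∀ s, |A s| ≤ 1 := by
    intro s
    rw [hA]
    simp only
    rw [abs_mul, abs_mul]
    have h1 := abs_phi_le δ s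
    have h2 := abs_sq_le s
    have h3 := abs_Gt_le v (ρ * s)
    exact mul_le_one₀ h1 (by positivity) (mul_le_one₀ h2 (abs_nonneg _) h3)
  have e1 : ∀ x : Fin n → ℝ, phi δ (∑ i, x i) * (1 + Real.sin (2 * π * x i0)) * hint n ρ v x
      = A (∑ i, x i) + A (∑ i, x i) * Real.sin (2 * π * x i0) := by
    intro x
    rw [hA, hint]
    ring
  simp_rw [e1]
  have mAS : Measurable (fun x : Fin n → ℝ => A (∑ i, x i)) := mA.comp (by fun_prop)
  have i1 : Integrable (fun x : Fin n → ℝ => A (∑ i, x i)) (gam n) := by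
    refine Integrable.of_bound (C := 1) mAS.aestronglyMeasurable ?_
    filter_upwards with x
    exact bA _
  have i2 : Integrable (fun x : Fin n → ℝ => A (∑ i, x i) * Real.sin (2 * π * x i0)) (gam n) := by
    refine Integrable.of_bound (C := 1)
      (mAS.mul (by fun_prop)).aestronglyMeasurable ?_
    filter_upwards with x
    rw [Real.norm_eq_abs, abs_mul]
    exact mul_le_one₀ (bA _) (abs_nonneg _) (Real.abs_sin_le_one _)
  rw [integral_add i1 i2, integral_sum n hn mA, integral_sum_sin n i0 mA bA]
  have j1 : Integrable A (gaussianReal 0 (n : ℝ≥0)) := by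
    refine Integrable.of_bound (C := 1) mA.aestronglyMeasurable ?_
    filter_upwards with x
    exact bA _
  have j2 : Integrable (fun s => A s * (cc n * Real.sin (2 * π * (s / n))))
      (gaussianReal 0 (n : ℝ≥0)) := by
    refine Integrable.of_bound (C := 1) (mA.mul (by fun_prop)).aestronglyMeasurable ?_
    filter_upwards with x
    have hb1 : |cc n * Real.sin (2 * π * (x / n))| ≤ 1 := by
      rw [abs_mul, abs_of_pos (cc_pos n)]
      exact mul_le_one₀ (cc_le_one n hn) (abs_nonneg _) (Real.abs_sin_le_one _)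
    rw [Real.norm_eq_abs]
    have hb2 := bA x
    rw [abs_mul]
    exact mul_le_one₀ hb2 (abs_nonneg _) hb1
  rw [← integral_add j1 j2, integral_gaussianReal_eq_integral_smul hn0,
    ← integral_phi_sq_psi n hn ρ v hv hδ0 hδ1]
  congr 1
  ext s
  rw [hA, psi]
  simp only [smul_eq_mul]
  ring

lemma weighted_neg (n : ℕ) (hn : 3 ≤ n) (i0 : Fin n) {ρ : ℝ} (h0 : 1 / 2 < ρ) (h1 : ρ < 1)
    (v : ℝ≥0) (hv : (v : ℝ) = n * (1 - ρ ^ 2)) (hv0 : v ≠ 0) :
    ∃ δ : ℝ, ∫ x, wt n i0 δ x * hint n ρ v x ∂(gam n) < 0 := by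
  obtain ⟨δ, hδ0, hδ1, hneg⟩ := exists_delta n hn h0 h1 v hv
  refine ⟨δ, ?_⟩
  have hn' : 0 < n := by omega
  have mh := measurable_hint n ρ v hv0
  set f : (Fin n → ℝ) → ℝ := fun x =>
    phi δ (∑ i, x i) * (1 + Real.sin (2 * π * x i0)) * hint n ρ v x with hf
  have mf : Measurable f :=
    (((measurable_phi δ).comp (by fun_prop)).mul (by fun_prop)).mul mh
  have bf : ∀ x, |f x| ≤ 2 := by
    intro x
    rw [hf]
    simp only
    rw [abs_mul, abs_mul]
    have a1 := abs_phi_le δ (∑ i, x i)
    have a2 : |1 + Real.sin (2 * π * x i0)| ≤ 2 := by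
      have := Real.neg_one_le_sin (2 * π * x i0)
      have := Real.sin_le_one (2 * π * x i0)
      rw [abs_le]; constructor <;> linarith
    have a3 := abs_hint_le n ρ v x
    have a4 : |phi δ (∑ i, x i)| * |1 + Real.sin (2 * π * x i0)| * |hint n ρ v x|
        ≤ (1 * 2) * 1 :=
      mul_le_mul (mul_le_mul a1 a2 (abs_nonneg _) zero_le_one) a3 (abs_nonneg _) (by norm_num)
    linarith
  have if1 : Integrable f (gam n) := by
    refine Integrable.of_bound (C := 2) mf.aestronglyMeasurable ?_
    filter_upwards with x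
    exact bf x
  have if2 : Integrable (fun x => f (-x)) (gam n) := by
    refine Integrable.of_bound (C := 2) (mf.comp measurable_neg).aestronglyMeasurable ?_
    filter_upwards with x
    exact bf (-x)
  have e : ∫ x, wt n i0 δ x * hint n ρ v x ∂(gam n) = ∫ x, (f x + f (-x)) ∂(gam n) := by
    apply integral_congr_ae
    filter_upwards [ae_sin_ne_zero_gam n hn'] with x hx
    rw [hf]
    simp only
    rw [hint_neg n ρ v hv0 hx, wt]
    have e1 : ∑ j, (-x) j = -∑ j, x j := by simp
    have e2 : Real.sin (2 * π * (-x) i0) = -Real.sin (2 * π * x i0) := by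
      rw [Pi.neg_apply, show 2 * π * -x i0 = -(2 * π * x i0) by ring, Real.sin_neg]
    rw [e1, e2]
    ring
  rw [e, integral_add if1 if2, integral_neg_gam n mf]
  have := half_integral n hn' i0 ρ v hv0 hδ0 hδ1
  rw [hf]
  rw [this]
  linarith

/-- Layer cake: some superlevel set of the weight has negative integral. -/
lemma exists_level (n : ℕ) {w h : (Fin n → ℝ) → ℝ} (mw : Measurable w) (mh : Measurable h)
    (w0 : ∀ x, 0 ≤ w x) (w4 : ∀ x, w x ≤ 4) (bh : ∀ x, |h x| ≤ 1)
    (hneg : ∫ x, w x * h x ∂(gam n) < 0) :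
    ∃ t : ℝ, ∫ x in {x | t < w x}, h x ∂(gam n) < 0 := by
  by_contra hcon
  push Not at hcon
  apply absurd hneg
  push Not
  have e1 : ∀ x, w x * h x = ∫ t in (0 : ℝ)..4, (if t < w x then h x else 0) := by
    intro x
    have hI1 : IntervalIntegrable (fun t : ℝ => if t < w x then h x else 0) volume 0 (w x) := by
      refine (intervalIntegrable_const (c := |h x|)).mono_fun' ?_ ?_
      · exact (Measurable.ite measurableSet_Iio measurable_const
          measurable_const).aestronglyMeasurable
      · filter_upwards with t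
        split_ifs
        · exact le_refl _
        · simp
    have hI2 : IntervalIntegrable (fun t : ℝ => if t < w x then h x else 0) volume (w x) 4 := by
      refine (intervalIntegrable_const (c := |h x|)).mono_fun' ?_ ?_
      · exact (Measurable.ite measurableSet_Iio measurable_const
          measurable_const).aestronglyMeasurable
      · filter_upwards with t
        split_ifs
        · exact le_refl _
        · simp
    rw [← intervalIntegral.integral_add_adjacent_intervals hI1 hI2]
    have z1 : ∫ t in (0 : ℝ)..(w x), (if t < w x then h x else 0) = w x * h x := by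
      have : ∫ t in (0 : ℝ)..(w x), (if t < w x then h x else 0)
          = ∫ t in (0 : ℝ)..(w x), h x := by
        rw [intervalIntegral.integral_of_le (w0 x), intervalIntegral.integral_of_le (w0 x),
          integral_Ioc_eq_integral_Ioo, integral_Ioc_eq_integral_Ioo]
        apply setIntegral_congr_fun measurableSet_Ioo
        intro t ht
        simp only
        rw [if_pos ht.2]
      rw [this, intervalIntegral.integral_const, sub_zero, smul_eq_mul]
    have z2 : ∫ t in (w x)..4, (if t < w x then h x else 0) = 0 := by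
      rw [intervalIntegral.integral_of_le (w4 x)]
      apply setIntegral_eq_zero_of_forall_eq_zero
      intro t ht
      rw [if_neg (by linarith [ht.1])]
    rw [z1, z2, add_zero]
  simp_rw [e1]
  have mF : Measurable (fun p : (Fin n → ℝ) × ℝ => if p.2 < w p.1 then h p.1 else 0) := by
    refine Measurable.ite ?_ (mh.comp measurable_fst) measurable_const
    exact measurableSet_lt measurable_snd (mw.comp measurable_fst)
  have hswap : ∫ x, (∫ t in (0 : ℝ)..4, (if t < w x then h x else 0)) ∂(gam n)
      = ∫ t in (0 : ℝ)..4, (∫ x, (if t < w x then h x else 0) ∂(gam n)) := by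
    rw [intervalIntegral.integral_of_le (by norm_num)]
    simp_rw [intervalIntegral.integral_of_le (show (0 : ℝ) ≤ 4 by norm_num)]
    rw [integral_integral_swap]
    refine Integrable.of_bound (C := 1) mF.aestronglyMeasurable ?_
    filter_upwards with p
    simp only [Function.uncurry]
    split_ifs
    · exact bh _
    · simp
  rw [hswap]
  apply intervalIntegral.integral_nonneg (by norm_num)
  intro t _
  have := hcon t
  rw [← integral_indicator (measurableSet_lt measurable_const mw)] at this
  refine this.trans_eq ?_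
  congr 1

end Pool.Agent.H946R3
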