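import Mathlib

open MeasureTheory ProbabilityTheory
open scoped Real NNReal

namespace Pool.Agent.H946R3

/-- The standard Gaussian measure on `ℝ^n`. -/
noncomputable def gam (n : ℕ) : Measure (Fin n → ℝ) := Measure.pi fun _ => gaussianReal 0 1

instance (n : ℕ) : IsProbabilityMeasure (gam n) := by unfold gam; infer_instance

lemma charFunDual_real (μ : Measure ℝ) (M : StrongDual ℝ ℝ) :
    charFunDual μ M = charFun μ (M 1) := by
  rw [charFunDual_apply, charFun_apply_real]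
  congr 1
  ext x
  have : M x = M 1 * x := by
    have h := M.map_smul x 1
    simp only [smul_eq_mul, mul_one] at h
    rw [h, mul_comm]
  rw [this]
  push_cast
  ring_nf

lemma charFunDual_gam (n : ℕ) (L : StrongDual ℝ (Fin n → ℝ)) :
    charFunDual (gam n) L = Complex.exp (-(∑ i, ((L (Pi.single i 1) : ℝ) : ℂ) ^ 2) / 2) := by
  rw [gam, charFunDual_pi]
  have h : ∀ i, charFunDual (gaussianReal 0 1)
      (L.comp (ContinuousLinearMap.single ℝ (fun _ : Fin n => ℝ) i))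
        = Complex.exp (-((L (Pi.single i 1) : ℝ) : ℂ) ^ 2 / 2) := by
    intro i
    rw [charFunDual_real, charFun_gaussianReal]
    simp
    ring_nf
  simp_rw [h]
  rw [← Complex.exp_sum]
  congr 1
  rw [← Finset.sum_div, Finset.sum_neg_distrib]

/-- The Gaussian pair `(x, ρx + σy)` has the law of `(√ρ z + √(1-ρ) w, √ρ z + √(1-ρ) w')`. -/
lemma pair_law (n : ℕ) {ρ : ℝ} (h0 : 0 ≤ ρ) (h1 : ρ ≤ 1) :
    Measure.map (fun p : (Fin n → ℝ) × (Fin n → ℝ) => (p.1, ρ • p.1 + √(1 - ρ ^ 2) • p.2))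
      ((gam n).prod (gam n)) =
    Measure.map (fun q : (Fin n → ℝ) × ((Fin n → ℝ) × (Fin n → ℝ)) =>
        (√ρ • q.1 + √(1 - ρ) • q.2.1, √ρ • q.1 + √(1 - ρ) • q.2.2))
      ((gam n).prod ((gam n).prod (gam n))) := by
  let A : ((Fin n → ℝ) × (Fin n → ℝ)) →L[ℝ] ((Fin n → ℝ) × (Fin n → ℝ)) :=
    (ContinuousLinearMap.fst ℝ _ _).prod
      (ρ • ContinuousLinearMap.fst ℝ _ _ + √(1 - ρ ^ 2) • ContinuousLinearMap.snd ℝ _ _)
  let P1 : ((Fin n → ℝ) × ((Fin n → ℝ) × (Fin n → ℝ))) →L[ℝ] (Fin n → ℝ) :=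
    ContinuousLinearMap.fst ℝ _ _
  let P2 : ((Fin n → ℝ) × ((Fin n → ℝ) × (Fin n → ℝ))) →L[ℝ] (Fin n → ℝ) :=
    (ContinuousLinearMap.fst ℝ _ _).comp (ContinuousLinearMap.snd ℝ _ _)
  let P3 : ((Fin n → ℝ) × ((Fin n → ℝ) × (Fin n → ℝ))) →L[ℝ] (Fin n → ℝ) :=
    (ContinuousLinearMap.snd ℝ _ _).comp (ContinuousLinearMap.snd ℝ _ _)
  let B : ((Fin n → ℝ) × ((Fin n → ℝ) × (Fin n → ℝ))) →L[ℝ] ((Fin n → ℝ) × (Fin n → ℝ)) :=
    (√ρ • P1 + √(1 - ρ) • P2).prod (√ρ • P1 + √(1 - ρ) • P3)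
  have hA : (fun p : (Fin n → ℝ) × (Fin n → ℝ) => (p.1, ρ • p.1 + √(1 - ρ ^ 2) • p.2)) = A := by
    ext p <;> simp [A]
  have hB : (fun q : (Fin n → ℝ) × ((Fin n → ℝ) × (Fin n → ℝ)) =>
        (√ρ • q.1 + √(1 - ρ) • q.2.1, √ρ • q.1 + √(1 - ρ) • q.2.2)) = B := by
    ext p <;> simp [B, P1, P2, P3]
  rw [hA, hB]
  have : IsFiniteMeasure (Measure.map A ((gam n).prod (gam n))) :=
    Measure.isFiniteMeasure_map _ _
  have : IsFiniteMeasure (Measure.map B ((gam n).prod ((gam n).prod (gam n)))) :=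
    Measure.isFiniteMeasure_map _ _
  apply Measure.ext_of_charFunDual
  ext L
  rw [charFunDual_map, charFunDual_map, charFunDual_prod, charFunDual_prod, charFunDual_prod,
    charFunDual_gam, charFunDual_gam, charFunDual_gam, charFunDual_gam, charFunDual_gam,
    ← Complex.exp_add, ← Complex.exp_add, ← Complex.exp_add]
  congr 1
  have hs1 : (√ρ) ^ 2 = ρ := Real.sq_sqrt h0
  have hs2 : (√(1 - ρ)) ^ 2 = 1 - ρ := Real.sq_sqrt (by linarith)
  have hs3 : (√(1 - ρ ^ 2)) ^ 2 = 1 - ρ ^ 2 := Real.sq_sqrt (by nlinarith)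
  have key : ∀ i : Fin n,
      (((L ∘SL A) ∘SL ContinuousLinearMap.inl ℝ _ _) (Pi.single i 1)) ^ 2
      + (((L ∘SL A) ∘SL ContinuousLinearMap.inr ℝ _ _) (Pi.single i 1)) ^ 2
      = (((L ∘SL B) ∘SL ContinuousLinearMap.inl ℝ _ _) (Pi.single i 1)) ^ 2
      + (((((L ∘SL B) ∘SL ContinuousLinearMap.inr ℝ _ _)) ∘SL ContinuousLinearMap.inl ℝ _ _)
          (Pi.single i 1)) ^ 2
      + (((((L ∘SL B) ∘SL ContinuousLinearMap.inr ℝ _ _)) ∘SL ContinuousLinearMap.inr ℝ _ _)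
          (Pi.single i 1)) ^ 2 := by
    intro i
    set e : Fin n → ℝ := Pi.single i 1 with he
    set l1 := L (e, 0) with hl1
    set l2 := L (0, e) with hl2
    have e1 : ((L ∘SL A) ∘SL ContinuousLinearMap.inl ℝ _ _) e = l1 + ρ * l2 := by
      have : A (e, 0) = (e, 0) + ρ • ((0 : Fin n → ℝ), e) := by ext <;> simp [A]
      simp only [ContinuousLinearMap.comp_apply, ContinuousLinearMap.inl_apply, this, map_add,
        map_smul, smul_eq_mul, hl1, hl2]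
    have e2 : ((L ∘SL A) ∘SL ContinuousLinearMap.inr ℝ _ _) e = √(1 - ρ ^ 2) * l2 := by
      have : A (0, e) = √(1 - ρ ^ 2) • ((0 : Fin n → ℝ), e) := by ext <;> simp [A]
      simp only [ContinuousLinearMap.comp_apply, ContinuousLinearMap.inr_apply, this,
        map_smul, smul_eq_mul, hl2]
    have e3 : ((L ∘SL B) ∘SL ContinuousLinearMap.inl ℝ _ _) e = √ρ * l1 + √ρ * l2 := by
      have : B (e, 0) = √ρ • (e, (0 : Fin n → ℝ)) + √ρ • ((0 : Fin n → ℝ), e) := by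
        ext <;> simp [B, P1, P2, P3]
      simp only [ContinuousLinearMap.comp_apply, ContinuousLinearMap.inl_apply, this, map_add,
        map_smul, smul_eq_mul, hl1, hl2]
    have e4 : ((((L ∘SL B) ∘SL ContinuousLinearMap.inr ℝ _ _)) ∘SL
        ContinuousLinearMap.inl ℝ _ _) e = √(1 - ρ) * l1 := by
      have : B (0, (e, 0)) = √(1 - ρ) • (e, (0 : Fin n → ℝ)) := by
        ext <;> simp [B, P1, P2, P3]
      simp only [ContinuousLinearMap.comp_apply, ContinuousLinearMap.inl_apply,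
        ContinuousLinearMap.inr_apply, this, map_smul, smul_eq_mul, hl1]
    have e5 : ((((L ∘SL B) ∘SL ContinuousLinearMap.inr ℝ _ _)) ∘SL
        ContinuousLinearMap.inr ℝ _ _) e = √(1 - ρ) * l2 := by
      have : B (0, (0, e)) = √(1 - ρ) • ((0 : Fin n → ℝ), e) := by
        ext <;> simp [B, P1, P2, P3]
      simp only [ContinuousLinearMap.comp_apply,
        ContinuousLinearMap.inr_apply, this, map_smul, smul_eq_mul, hl2]
    rw [e1, e2, e3, e4, e5]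
    linear_combination (l2 ^ 2) * hs3 - (l1 + l2) ^ 2 * hs1 - (l1 ^ 2 + l2 ^ 2) * hs2
  have key2 := Finset.sum_congr (rfl : (Finset.univ : Finset (Fin n)) = Finset.univ)
    (fun i _ => key i)
  simp only [Finset.sum_add_distrib] at key2
  have key3 := congrArg (fun r : ℝ => (r : ℂ)) key2
  simp only [Complex.ofReal_add, Complex.ofReal_sum, Complex.ofReal_pow] at key3
  linear_combination (-(1 : ℂ) / 2) * key3

/-- The bilinear form `E[f(X) g(Y)]` for the `ρ`-correlated Gaussian pair. -/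
noncomputable def Q (n : ℕ) (ρ : ℝ) (f g : (Fin n → ℝ) → ℝ) : ℝ :=
  ∫ p, f p.1 * g (ρ • p.1 + √(1 - ρ ^ 2) • p.2) ∂((gam n).prod (gam n))

lemma Q_eq (n : ℕ) {ρ : ℝ} (h0 : 0 ≤ ρ) (h1 : ρ ≤ 1) {f g : (Fin n → ℝ) → ℝ}
    (hf : Measurable f) (hg : Measurable g) {Cf Cg : ℝ} (bf : ∀ x, |f x| ≤ Cf)
    (bg : ∀ x, |g x| ≤ Cg) :
    Q n ρ f g = ∫ z, (∫ w, f (√ρ • z + √(1 - ρ) • w) ∂(gam n)) *
      (∫ w, g (√ρ • z + √(1 - ρ) • w) ∂(gam n)) ∂(gam n) := by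
  have hfg : Measurable (fun p : (Fin n → ℝ) × (Fin n → ℝ) => f p.1 * g p.2) :=
    (hf.comp measurable_fst).mul (hg.comp measurable_snd)
  have e1 : Q n ρ f g = ∫ p, f p.1 * g p.2
      ∂(Measure.map (fun p : (Fin n → ℝ) × (Fin n → ℝ) => (p.1, ρ • p.1 + √(1 - ρ ^ 2) • p.2))
      ((gam n).prod (gam n))) := by
    rw [integral_map (by fun_prop) hfg.aestronglyMeasurable]
    rfl
  rw [e1, pair_law n h0 h1, integral_map (by fun_prop) hfg.aestronglyMeasurable]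
  have hCf : 0 ≤ Cf := (abs_nonneg _).trans (bf 0)
  have hint : Integrable (fun q : (Fin n → ℝ) × ((Fin n → ℝ) × (Fin n → ℝ)) =>
      f (√ρ • q.1 + √(1 - ρ) • q.2.1) * g (√ρ • q.1 + √(1 - ρ) • q.2.2))
      ((gam n).prod ((gam n).prod (gam n))) := by
    refine Integrable.of_bound (C := Cf * Cg) ?_ ?_
    · refine Measurable.aestronglyMeasurable ?_
      exact (hf.comp (by fun_prop)).mul (hg.comp (by fun_prop))
    · filter_upwards with q
      rw [norm_mul, Real.norm_eq_abs, Real.norm_eq_abs]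
      exact mul_le_mul (bf _) (bg _) (abs_nonneg _) hCf
  rw [integral_prod _ hint]
  congr 1
  ext z
  exact integral_prod_mul (fun w => f (√ρ • z + √(1 - ρ) • w))
    (fun w => g (√ρ • z + √(1 - ρ) • w))

lemma Q_symm (n : ℕ) {ρ : ℝ} (h0 : 0 ≤ ρ) (h1 : ρ ≤ 1) {f g : (Fin n → ℝ) → ℝ}
    (hf : Measurable f) (hg : Measurable g) {Cf Cg : ℝ} (bf : ∀ x, |f x| ≤ Cf)
    (bg : ∀ x, |g x| ≤ Cg) : Q n ρ f g = Q n ρ g f := by
  rw [Q_eq n h0 h1 hf hg bf bg, Q_eq n h0 h1 hg hf bg bf]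
  congr 1
  ext z
  rw [mul_comm]

lemma Q_self_nonneg (n : ℕ) {ρ : ℝ} (h0 : 0 ≤ ρ) (h1 : ρ ≤ 1) {f : (Fin n → ℝ) → ℝ}
    (hf : Measurable f) {Cf : ℝ} (bf : ∀ x, |f x| ≤ Cf) : 0 ≤ Q n ρ f f := by
  rw [Q_eq n h0 h1 hf hf bf bf]
  exact integral_nonneg fun z => mul_self_nonneg _

lemma integrable_Q (n : ℕ) (ρ : ℝ) {f g : (Fin n → ℝ) → ℝ}
    (hf : Measurable f) (hg : Measurable g) {Cf Cg : ℝ} (bf : ∀ x, |f x| ≤ Cf)
    (bg : ∀ x, |g x| ≤ Cg) :
    Integrable (fun p : (Fin n → ℝ) × (Fin n → ℝ) => f p.1 * g (ρ • p.1 + √(1 - ρ ^ 2) • p.2))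
      ((gam n).prod (gam n)) := by
  have hCf : 0 ≤ Cf := (abs_nonneg _).trans (bf 0)
  refine Integrable.of_bound (C := Cf * Cg) ?_ ?_
  · refine Measurable.aestronglyMeasurable ?_
    exact (hf.comp (by fun_prop)).mul (hg.comp (by fun_prop))
  · filter_upwards with q
    rw [norm_mul, Real.norm_eq_abs, Real.norm_eq_abs]
    exact mul_le_mul (bf _) (bg _) (abs_nonneg _) hCf

lemma Q_add_left (n : ℕ) (ρ : ℝ) {f f' g : (Fin n → ℝ) → ℝ}
    (hf : Measurable f) (hf' : Measurable f') (hg : Measurable g) {Cf Cf' Cg : ℝ}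
    (bf : ∀ x, |f x| ≤ Cf) (bf' : ∀ x, |f' x| ≤ Cf')
    (bg : ∀ x, |g x| ≤ Cg) : Q n ρ (fun x => f x + f' x) g = Q n ρ f g + Q n ρ f' g := by
  unfold Q
  rw [← integral_add (integrable_Q n ρ hf hg bf bg) (integrable_Q n ρ hf' hg bf' bg)]
  congr 1
  ext p
  ring

lemma Q_smul_left (n : ℕ) (ρ c : ℝ) (f g : (Fin n → ℝ) → ℝ) :
    Q n ρ (fun x => c * f x) g = c * Q n ρ f g := by
  unfold Q
  rw [← integral_const_mul]
  congr 1
  ext p
  ring

/-- Convexity: the self form at `g + h` dominates the self form at `g` plus twice the cross form. -/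
lemma Q_convex (n : ℕ) {ρ : ℝ} (h0 : 0 ≤ ρ) (h1 : ρ ≤ 1) {f g : (Fin n → ℝ) → ℝ}
    (hf : Measurable f) (hg : Measurable g) {Cf Cg : ℝ} (bf : ∀ x, |f x| ≤ Cf)
    (bg : ∀ x, |g x| ≤ Cg) :
    Q n ρ g g + 2 * Q n ρ f g ≤ Q n ρ (fun x => g x + f x) (fun x => g x + f x) := by
  have bs : ∀ x, |g x + f x| ≤ Cg + Cf := fun x =>
    (abs_add_le _ _).trans (add_le_add (bg x) (bf x))
  have ms : Measurable (fun x => g x + f x) := hg.add hf
  rw [Q_add_left n ρ hg hf ms bg bf bs, Q_symm n h0 h1 hg ms bg bs, Q_symm n h0 h1 hf ms bf bs,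
    Q_add_left n ρ hg hf hg bg bf bg, Q_add_left n ρ hg hf hf bg bf bf,
    Q_symm n h0 h1 hg hf bg bf]
  have := Q_self_nonneg n h0 h1 hf bf
  linarith

end Pool.Agent.H946R3
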