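import Mathlib

open scoped Real

namespace Pool.Agent.H946R3

lemma summable_exp_abs {c : ℝ} (hc : 0 < c) : Summable fun l : ℤ => Real.exp (-c * |(l : ℝ)|) := by
  rw [summable_int_iff_summable_nat_and_neg]
  have h : Summable fun n : ℕ => Real.exp (n * (-c)) :=
    Real.summable_exp_nat_mul_iff.2 (by linarith)
  constructor
  · refine h.congr fun n => ?_
    congr 1
    simp
    ring
  · refine h.congr fun n => ?_
    congr 1
    simp
    ring

lemma gauss_le_exp_abs {c : ℝ} (hc : 0 < c) (x : ℝ) (l : ℤ) :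
    Real.exp (-c * ((l : ℝ) + x) ^ 2)
      ≤ Real.exp (c * (|x| + 1 / 4)) * Real.exp (-c * |(l : ℝ)|) := by
  rw [← Real.exp_add]
  apply Real.exp_le_exp.2
  have h1 : |(l : ℝ)| ≤ |(l : ℝ) + x| + |x| := by
    have := abs_sub (l + x : ℝ) x
    simpa using this
  have h2 : |(l : ℝ) + x| ≤ ((l : ℝ) + x) ^ 2 + 1 / 4 := by
    have := sq_nonneg (|(l : ℝ) + x| - 1 / 2)
    have h3 := sq_abs ((l : ℝ) + x)
    nlinarith
  nlinarith

lemma summable_gauss {c : ℝ} (hc : 0 < c) (x : ℝ) :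
    Summable fun l : ℤ => Real.exp (-c * ((l : ℝ) + x) ^ 2) :=
  Summable.of_nonneg_of_le (fun _ => (Real.exp_pos _).le) (fun l => gauss_le_exp_abs hc x l)
    ((summable_exp_abs hc).mul_left _)

lemma theta_shift {v : ℝ} (hv : 0 < v) (x β : ℝ) :
    ∑' l : ℤ, Complex.exp (((-(1 / (2 * v)) * ((l : ℝ) + x) ^ 2 : ℝ) : ℂ)
        + ((-(π * β * l) : ℝ) : ℂ) * Complex.I)
      = (√(2 * π * v) : ℂ) * ∑' j : ℤ, Complex.exp (((-(2 * π ^ 2 * v) * ((j : ℝ) + β / 2) ^ 2 : ℝ) : ℂ)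
        + ((π * x * (2 * j + β) : ℝ) : ℂ) * Complex.I) := by
  have hπ : (0 : ℝ) < π := Real.pi_pos
  have hπC : (π : ℂ) ≠ 0 := by exact_mod_cast hπ.ne'
  have hvC : (v : ℂ) ≠ 0 := by exact_mod_cast hv.ne'
  have ha : (0 : ℝ) < ((1 / (2 * π * v) : ℝ) : ℂ).re := by
    rw [Complex.ofReal_re]
    positivity
  have h := Complex.tsum_exp_neg_quadratic ha ((-Complex.I * π * β - x / v) / (2 * π))
  have h2 : (1 : ℂ) / (((1 / (2 * π * v) : ℝ) : ℂ)) ^ (1 / 2 : ℂ) = (√(2 * π * v) : ℂ) := by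
    have e1 : (((1 / (2 * π * v) : ℝ) : ℂ)) ^ (1 / 2 : ℂ)
        = (((1 / (2 * π * v)) ^ (1 / 2 : ℝ) : ℝ) : ℂ) := by
      rw [Complex.ofReal_cpow (by positivity)]
      push_cast
      rfl
    rw [e1, ← Real.sqrt_eq_rpow, show (1 / (2 * π * v) : ℝ) = (2 * π * v)⁻¹ from one_div _,
      Real.sqrt_inv, Complex.ofReal_inv, one_div, inv_inv]
  rw [h2] at h
  have e1 : ∀ l : ℤ, Complex.exp (((-(1 / (2 * v)) * ((l : ℝ) + x) ^ 2 : ℝ) : ℂ)
        + ((-(π * β * l) : ℝ) : ℂ) * Complex.I)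
      = Complex.exp (-(x ^ 2 / (2 * v) : ℂ)) * Complex.exp (-π * ((1 / (2 * π * v) : ℝ) : ℂ) * l ^ 2
        + 2 * π * ((-Complex.I * π * β - x / v) / (2 * π)) * l) := by
    intro l
    rw [← Complex.exp_add]
    congr 1
    push_cast
    field_simp
    ring
  have e2 : ∀ j : ℤ, Complex.exp (((-(2 * π ^ 2 * v) * ((j : ℝ) + β / 2) ^ 2 : ℝ) : ℂ)
        + ((π * x * (2 * j + β) : ℝ) : ℂ) * Complex.I)
      = Complex.exp (-(x ^ 2 / (2 * v) : ℂ)) * Complex.exp (-π / ((1 / (2 * π * v) : ℝ) : ℂ)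
        * (j + Complex.I * ((-Complex.I * π * β - x / v) / (2 * π))) ^ 2) := by
    intro j
    rw [← Complex.exp_add]
    congr 1
    push_cast
    field_simp
    ring_nf
    simp only [Complex.I_sq, show Complex.I ^ 3 = -Complex.I by rw [pow_succ, Complex.I_sq]; ring,
      show Complex.I ^ 4 = 1 by rw [show (4 : ℕ) = 2 * 2 by norm_num, pow_mul, Complex.I_sq]; ring]
    ring
  simp_rw [e1, e2]
  rw [tsum_mul_left, tsum_mul_left, h]
  ring

lemma summable_cexp_aux {c : ℝ} (hc : 0 < c) (x : ℝ) (f : ℤ → ℝ) :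
    Summable fun l : ℤ => Complex.exp (((-c * ((l : ℝ) + x) ^ 2 : ℝ) : ℂ)
      + ((f l : ℝ) : ℂ) * Complex.I) := by
  refine Summable.of_norm_bounded (summable_gauss hc x) fun l => ?_
  rw [Complex.exp_add, norm_mul, Complex.norm_exp_ofReal_mul_I, mul_one, Complex.norm_exp,
    Complex.ofReal_re]

lemma re_cexp_aux (r s : ℝ) :
    (Complex.exp ((r : ℂ) + (s : ℂ) * Complex.I)).re = Real.exp r * Real.cos s := by
  rw [Complex.exp_re]
  simp

/-- Poisson summation, real form with shift and character. -/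
lemma theta_real {v : ℝ} (hv : 0 < v) (x β : ℝ) :
    ∑' l : ℤ, Real.exp (-(1 / (2 * v)) * ((l : ℝ) + x) ^ 2) * Real.cos (π * β * l)
      = √(2 * π * v) * ∑' j : ℤ, Real.exp (-(2 * π ^ 2 * v) * ((j : ℝ) + β / 2) ^ 2)
        * Real.cos (π * x * (2 * j + β)) := by
  have h := congrArg Complex.re (theta_shift hv x β)
  rw [Complex.re_tsum, Complex.re_ofReal_mul, Complex.re_tsum] at h
  · simp_rw [re_cexp_aux] at h
    simp_rw [Real.cos_neg] at h
    exact h
  · exact summable_cexp_aux (by positivity) _ _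
  · exact summable_cexp_aux (c := 1 / (2 * v)) (by positivity) _ _

/-- The basic periodic theta function. -/
noncomputable def th (n : ℕ) (β : ℝ) : ℝ :=
  ∑' k : ℤ, Real.exp (-(2 * π ^ 2 * n) * ((k : ℝ) + β / 2) ^ 2)

lemma th_eq (n : ℕ) (hn : 0 < n) (β : ℝ) :
    ∑' l : ℤ, Real.exp (-(1 / (2 * (n : ℝ))) * (l : ℝ) ^ 2) * Real.cos (π * β * l)
      = √(2 * π * n) * th n β := by
  have h := theta_real (v := n) (by exact_mod_cast hn) 0 β
  simp only [add_zero, mul_zero, zero_mul, Real.cos_zero, mul_one] at h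
  exact h

lemma summable_gauss0 {c : ℝ} (hc : 0 < c) :
    Summable fun l : ℤ => Real.exp (-c * (l : ℝ) ^ 2) := by
  simpa using summable_gauss hc 0

lemma th_nonneg (n : ℕ) (β : ℝ) : 0 ≤ th n β := tsum_nonneg fun _ => (Real.exp_pos _).le

lemma th_le (n : ℕ) (hn : 0 < n) (β : ℝ) : th n β ≤ th n 0 := by
  have hn' : (0 : ℝ) < n := by exact_mod_cast hn
  have h1 := th_eq n hn β
  have h0 := th_eq n hn 0
  have hs : (0 : ℝ) < √(2 * π * n) := Real.sqrt_pos.2 (by positivity)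
  have hc : (0 : ℝ) < 1 / (2 * (n : ℝ)) := by positivity
  have hle : ∑' l : ℤ, Real.exp (-(1 / (2 * (n : ℝ))) * (l : ℝ) ^ 2) * Real.cos (π * β * l)
      ≤ ∑' l : ℤ, Real.exp (-(1 / (2 * (n : ℝ))) * (l : ℝ) ^ 2) * Real.cos (π * 0 * l) := by
    apply Summable.tsum_le_tsum
    · intro l
      apply mul_le_mul_of_nonneg_left _ (Real.exp_pos _).le
      simp [Real.cos_le_one]
    · refine Summable.of_norm_bounded (summable_gauss0 hc) fun l => ?_
      rw [norm_mul, Real.norm_eq_abs, Real.norm_eq_abs, Real.abs_exp]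
      exact mul_le_of_le_one_right (Real.exp_pos _).le (Real.abs_cos_le_one _)
    · simpa using summable_gauss0 hc
  rw [h1, h0] at hle
  exact le_of_mul_le_mul_left hle hs

end Pool.Agent.H946R3
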