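import Pool.Agent.H946R3.Theta

open scoped Real

namespace Pool.Agent.H946R3

lemma sinh_mul_le (K : ℕ) {u : ℝ} (hu : 0 ≤ u) :
    Real.sinh ((K + 1 : ℕ) * u) ≤ (K + 1) * Real.exp (K * u) * Real.sinh u := by
  have hs : 0 ≤ Real.sinh u := Real.sinh_nonneg_iff.2 hu
  induction K with
  | zero => simp
  | succ K ih =>
    have e1 : ((K + 1 + 1 : ℕ) : ℝ) * u = (K + 1 : ℕ) * u + u := by push_cast; ring
    rw [e1, Real.sinh_add]
    have hc1 : Real.cosh u ≤ Real.exp u := by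
      rw [← Real.cosh_add_sinh]; linarith
    have hc2 : Real.cosh ((K + 1 : ℕ) * u) ≤ Real.exp ((K + 1 : ℕ) * u) := by
      have : 0 ≤ Real.sinh ((K + 1 : ℕ) * u) := Real.sinh_nonneg_iff.2 (by positivity)
      rw [← Real.cosh_add_sinh]; linarith
    have hc0 : 0 ≤ Real.cosh u := (Real.cosh_pos u).le
    have h1 : Real.sinh ((K + 1 : ℕ) * u) * Real.cosh u
        ≤ ((K + 1) * Real.exp (K * u) * Real.sinh u) * Real.exp u := by
      apply mul_le_mul ih hc1 hc0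
      positivity
    have h2 : Real.cosh ((K + 1 : ℕ) * u) * Real.sinh u
        ≤ Real.exp ((K + 1 : ℕ) * u) * Real.sinh u :=
      mul_le_mul_of_nonneg_right hc2 hs
    have e2 : Real.exp ((K + 1 : ℕ) * u) = Real.exp (K * u) * Real.exp u := by
      rw [← Real.exp_add]; congr 1; push_cast; ring
    have e3 : ((K + 1 : ℕ) : ℝ) + 1 = (K + 1) + 1 := by push_cast; ring
    rw [e3]
    calc _ ≤ ((K + 1) * Real.exp (K * u) * Real.sinh u) * Real.exp u
          + Real.exp ((K + 1 : ℕ) * u) * Real.sinh u := add_le_add h1 h2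
      _ = _ := by rw [e2]; ring

/-- The paired term. -/
noncomputable def hh (n : ℕ) (t : ℝ) (k : ℤ) : ℝ :=
  Real.exp (-(2 * π ^ 2 * n) * ((k : ℝ) + 1 / n) ^ 2)
    * Real.sinh (2 * π ^ 2 * n * ((k : ℝ) + 1 / n) * t)

lemma D_eq (n : ℕ) (hn : 0 < n) (t : ℝ) :
    HasSum (fun k : ℤ => 2 * Real.exp (-(π ^ 2 * n / 2) * t ^ 2) * hh n t k)
      (th n (t - 2 / n) - th n (t + 2 / n)) := by
  have hn' : (0 : ℝ) < n := by exact_mod_cast hn
  have hc : (0 : ℝ) < 2 * π ^ 2 * n := by positivity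
  have s1 := (summable_gauss hc ((t + 2 / n) / 2)).hasSum
  have s2 := (summable_gauss hc ((t - 2 / n) / 2)).hasSum
  have s3 : HasSum (fun k : ℤ => Real.exp (-(2 * π ^ 2 * n) * (((-k : ℤ) : ℝ)
      + (t - 2 / n) / 2) ^ 2)) (th n (t - 2 / n)) := by
    have := (Equiv.neg ℤ).hasSum_iff.2 s2
    exact this
  have s4 := s3.sub s1
  refine s4.congr_fun ?_ |> fun h => h
  intro k
  have e1 : Real.exp (-(2 * π ^ 2 * n) * (((-k : ℤ) : ℝ) + (t - 2 / n) / 2) ^ 2)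
      = Real.exp (-(2 * π ^ 2 * n) * ((k : ℝ) + 1 / n) ^ 2) * Real.exp (-(π ^ 2 * n / 2) * t ^ 2)
        * Real.exp (2 * π ^ 2 * n * ((k : ℝ) + 1 / n) * t) := by
    rw [← Real.exp_add, ← Real.exp_add]
    congr 1
    push_cast
    field_simp
    ring
  have e2 : Real.exp (-(2 * π ^ 2 * n) * ((k : ℝ) + (t + 2 / n) / 2) ^ 2)
      = Real.exp (-(2 * π ^ 2 * n) * ((k : ℝ) + 1 / n) ^ 2) * Real.exp (-(π ^ 2 * n / 2) * t ^ 2)
        * Real.exp (-(2 * π ^ 2 * n * ((k : ℝ) + 1 / n) * t)) := by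
    rw [← Real.exp_add, ← Real.exp_add]
    congr 1
    field_simp
    ring
  rw [hh, Real.sinh_eq, e1, e2]
  ring

end Pool.Agent.H946R3
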