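import Pool.Agent.H946R3.Theta2

open scoped Real

namespace Pool.Agent.H946R3

lemma hh_nonneg (n : ℕ) {t : ℝ} (h0 : 0 ≤ t) (k : ℕ) : 0 ≤ hh n t (k : ℤ) := by
  unfold hh
  apply mul_nonneg (Real.exp_pos _).le
  apply Real.sinh_nonneg_iff.2
  push_cast
  positivity

lemma hh_zero (n : ℕ) (hn : 0 < n) (t : ℝ) :
    hh n t 0 = Real.exp (-(2 * π ^ 2 / n)) * Real.sinh (2 * π ^ 2 * t) := by
  have hn' : (n : ℝ) ≠ 0 := by exact_mod_cast hn.ne'
  unfold hh
  have e1 : -(2 * π ^ 2 * n) * (((0 : ℤ) : ℝ) + 1 / n) ^ 2 = -(2 * π ^ 2 / n) := by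
    push_cast
    field_simp
    ring
  have e2 : 2 * π ^ 2 * n * (((0 : ℤ) : ℝ) + 1 / n) * t = 2 * π ^ 2 * t := by
    push_cast
    field_simp
    ring
  rw [e1, e2]

lemma exp_neg_eight : Real.exp (-8) ≤ 1 / 40 := by
  rw [Real.exp_neg, show (8 : ℝ) = (8 : ℕ) * 1 by norm_num, Real.exp_nat_mul, one_div]
  apply inv_anti₀ (by norm_num)
  have h := Real.exp_one_gt_d9
  calc (40 : ℝ) ≤ 2.7 ^ 8 := by norm_num
    _ ≤ Real.exp 1 ^ 8 := by
      apply pow_le_pow_left₀ (by norm_num)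
      linarith

lemma hh_neg (n : ℕ) (hn : 3 ≤ n) {t : ℝ} (h0 : 0 ≤ t) (h1 : t ≤ 1 / 2) (l : ℕ) :
    -(hh n t 0 * (1 / 40) ^ (l + 1)) ≤ hh n t (-((l : ℤ) + 1)) := by
  obtain ⟨K, hK⟩ : ∃ K : ℕ, K + 2 = n * (l + 1) := by
    refine ⟨n * (l + 1) - 2, ?_⟩
    have : 3 * 1 ≤ n * (l + 1) := Nat.mul_le_mul hn (by omega)
    omega
  have hKl : l + 1 ≤ K := by
    have : 3 * (l + 1) ≤ n * (l + 1) := Nat.mul_le_mul_right _ hn
    omega
  have hn0 : (0 : ℝ) < n := by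
    have : 0 < n := by omega
    exact_mod_cast this
  have hKr : (K : ℝ) + 2 = n * (l + 1) := by exact_mod_cast hK
  have hKlr : (l : ℝ) + 1 ≤ K := by exact_mod_cast hKl
  have hpi : 9 < π ^ 2 := by nlinarith [Real.pi_gt_three]
  set u : ℝ := 2 * π ^ 2 * t with hu
  have hu0 : 0 ≤ u := by positivity
  have hu1 : u ≤ π ^ 2 := by
    have := mul_le_mul_of_nonneg_left h1 (show (0 : ℝ) ≤ 2 * π ^ 2 by positivity)
    linarith
  have e0 : hh n t (-((l : ℤ) + 1))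
      = -(Real.exp (-(2 * π ^ 2 / n) * (K + 1) ^ 2) * Real.sinh ((K + 1 : ℕ) * u)) := by
    unfold hh
    have a1 : (((-((l : ℤ) + 1) : ℤ)) : ℝ) + 1 / n = -((K + 1) / n) := by
      push_cast
      field_simp
      linarith
    rw [a1]
    have a2 : -(2 * π ^ 2 * n) * (-((K + 1) / n)) ^ 2 = -(2 * π ^ 2 / n) * ((K : ℝ) + 1) ^ 2 := by
      field_simp
    have a3 : 2 * π ^ 2 * n * (-((K + 1) / n)) * t = -(((K + 1 : ℕ) : ℝ) * u) := by
      rw [hu]
      push_cast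
      field_simp
    rw [a2, a3, Real.sinh_neg]
    ring
  rw [e0, hh_zero n (by omega)]
  apply neg_le_neg
  have hsu : 0 ≤ Real.sinh u := Real.sinh_nonneg_iff.2 hu0
  have b1 := sinh_mul_le K hu0
  have b2 : ((K : ℝ) + 1) ≤ Real.exp K := Real.add_one_le_exp _
  have b3 : Real.exp (-8 * (l + 1)) ≤ (1 / 40) ^ (l + 1) := by
    have : Real.exp (-8 * (l + 1)) = Real.exp (-8) ^ (l + 1) := by
      rw [← Real.exp_nat_mul]
      congr 1
      push_cast
      ring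
    rw [this]
    exact pow_le_pow_left₀ (Real.exp_pos _).le exp_neg_eight _
  have b4 : -(2 * π ^ 2 / n) * ((K : ℝ) + 1) ^ 2
      = -(2 * π ^ 2 / n) - 2 * π ^ 2 * K * (l + 1) := by
    have : ((K : ℝ) + 1) ^ 2 = 1 + K * (n * (l + 1)) := by
      rw [← hKr]; ring
    rw [this]
    field_simp
    ring
  calc Real.exp (-(2 * π ^ 2 / n) * (K + 1) ^ 2) * Real.sinh ((K + 1 : ℕ) * u)
      ≤ Real.exp (-(2 * π ^ 2 / n) * (K + 1) ^ 2) *
          ((K + 1) * Real.exp (K * u) * Real.sinh u) :=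
        mul_le_mul_of_nonneg_left b1 (Real.exp_pos _).le
    _ ≤ Real.exp (-(2 * π ^ 2 / n) * (K + 1) ^ 2) *
          (Real.exp K * Real.exp (K * u) * Real.sinh u) := by
        apply mul_le_mul_of_nonneg_left _ (Real.exp_pos _).le
        apply mul_le_mul_of_nonneg_right _ hsu
        exact mul_le_mul_of_nonneg_right b2 (Real.exp_pos _).le
    _ = Real.exp (-(2 * π ^ 2 / n)) * Real.sinh u *
          Real.exp (K + K * u - 2 * π ^ 2 * K * (l + 1)) := by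
        rw [b4, sub_eq_add_neg, Real.exp_add, sub_eq_add_neg, Real.exp_add, Real.exp_add]
        ring
    _ ≤ Real.exp (-(2 * π ^ 2 / n)) * Real.sinh u * Real.exp (-8 * (l + 1)) := by
        apply mul_le_mul_of_nonneg_left _ (by positivity)
        apply Real.exp_le_exp.2
        have hl0 : (0 : ℝ) ≤ l := by positivity
        have hK0 : (0 : ℝ) ≤ K := by positivity
        have c1 : K * u ≤ K * π ^ 2 := mul_le_mul_of_nonneg_left hu1 hK0
        have c2 : 0 ≤ π ^ 2 * K * l := by positivity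
        have c3 : 8 * (K : ℝ) ≤ (π ^ 2 - 1) * K := by
          apply mul_le_mul_of_nonneg_right _ hK0
          linarith
        linarith
    _ ≤ Real.exp (-(2 * π ^ 2 / n)) * Real.sinh u * (1 / 40) ^ (l + 1) :=
        mul_le_mul_of_nonneg_left b3 (by positivity)

lemma hh_sum_lower (n : ℕ) (hn : 3 ≤ n) {t : ℝ} (h0 : 0 ≤ t) (h1 : t ≤ 1 / 2)
    (hs : Summable fun k : ℤ => hh n t k) :
    (19 / 20) * hh n t 0 ≤ ∑' k : ℤ, hh n t k := by
  have hs1 : Summable fun k : ℕ => hh n t (k : ℤ) := hs.comp_injective Nat.cast_injective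
  have hs2 : Summable fun l : ℕ => hh n t (-((l : ℤ) + 1)) := by
    refine hs.comp_injective (i := fun l : ℕ => (-((l : ℤ) + 1))) ?_
    intro a b h
    simp only at h
    omega
  rw [tsum_of_nat_of_neg_add_one hs1 hs2]
  have c1 : hh n t 0 ≤ ∑' k : ℕ, hh n t (k : ℤ) := by
    have := hs1.sum_le_tsum (Finset.range 1) (fun k _ => hh_nonneg n h0 k)
    simpa using this
  have hh0 : 0 ≤ hh n t 0 := by simpa using hh_nonneg n h0 0
  have hg : HasSum (fun l : ℕ => -(hh n t 0 * (1 / 40 : ℝ) ^ (l + 1)))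
      (-(hh n t 0 * ((1 - 1 / 40 : ℝ)⁻¹ * (1 / 40)))) := by
    have := hasSum_geometric_of_lt_one (r := (1 / 40 : ℝ)) (by norm_num) (by norm_num)
    have := ((this.mul_right (1 / 40)).mul_left (hh n t 0)).neg
    refine this.congr_fun fun l => ?_
    rw [pow_succ]
  have c2 : -(hh n t 0 * ((1 - 1 / 40 : ℝ)⁻¹ * (1 / 40))) ≤ ∑' l : ℕ, hh n t (-((l : ℤ) + 1)) :=
    hasSum_le (fun l => hh_neg n hn h0 h1 l) hg hs2.hasSum
  have c3 : ((1 - 1 / 40 : ℝ)⁻¹ * (1 / 40)) ≤ 1 / 20 := by norm_num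
  have c4 := mul_le_mul_of_nonneg_left c3 hh0
  linarith

lemma D_lower (n : ℕ) (hn : 3 ≤ n) {t : ℝ} (h0 : 0 ≤ t) (h1 : t ≤ 1 / 2) :
    (19 / 10) * Real.exp (-(π ^ 2 * n / 2) * t ^ 2) * (Real.exp (-(2 * π ^ 2 / n))
      * Real.sinh (2 * π ^ 2 * t)) ≤ th n (t - 2 / n) - th n (t + 2 / n) := by
  have hD := D_eq n (by omega) t
  have hpos : (0 : ℝ) < 2 * Real.exp (-(π ^ 2 * n / 2) * t ^ 2) := by positivity
  have hs : Summable fun k : ℤ => hh n t k := by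
    have := hD.summable.mul_left (2 * Real.exp (-(π ^ 2 * n / 2) * t ^ 2))⁻¹
    refine this.congr fun k => ?_
    rw [← mul_assoc, inv_mul_cancel₀ hpos.ne', one_mul]
  rw [← hD.tsum_eq, tsum_mul_left]
  have := hh_sum_lower n hn h0 h1 hs
  rw [← hh_zero n (by omega)]
  have c4 := mul_le_mul_of_nonneg_left this hpos.le
  linarith

lemma D_nonneg (n : ℕ) (hn : 3 ≤ n) {t : ℝ} (h0 : 0 ≤ t) (h1 : t ≤ 1 / 2) :
    0 ≤ th n (t - 2 / n) - th n (t + 2 / n) := by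
  refine le_trans ?_ (D_lower n hn h0 h1)
  have : 0 ≤ Real.sinh (2 * π ^ 2 * t) := Real.sinh_nonneg_iff.2 (by positivity)
  positivity

lemma th_zero_le (n : ℕ) (hn : 3 ≤ n) : th n 0 ≤ 2 := by
  have hn' : (3 : ℝ) ≤ n := by exact_mod_cast hn
  have hpi : 9 < π ^ 2 := by nlinarith [Real.pi_gt_three]
  have hc : (0 : ℝ) < 2 * π ^ 2 * n := by positivity
  obtain ⟨f, hf⟩ : ∃ f : ℤ → ℝ, ∀ k, f k = Real.exp (-(2 * π ^ 2 * n) * (k : ℝ) ^ 2) :=
    ⟨_, fun _ => rfl⟩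
  have hs : Summable f := (summable_gauss0 hc).congr fun k => (hf k).symm
  have e0 : th n 0 = ∑' k : ℤ, f k := by
    unfold th
    congr 1
    ext k
    rw [hf]
    simp
  have hs1 : Summable fun k : ℕ => f (k : ℤ) :=
    hs.comp_injective (i := fun k : ℕ => (k : ℤ)) Nat.cast_injective
  have hs2 : Summable fun l : ℕ => f (-((l : ℤ) + 1)) := by
    refine hs.comp_injective (i := fun l : ℕ => (-((l : ℤ) + 1))) ?_
    intro a b h
    simp only at h
    omega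
  have key : ∀ l : ℕ, Real.exp (-(2 * π ^ 2 * n) * ((l : ℝ) + 1) ^ 2) ≤ (1 / 40) ^ (l + 1) := by
    intro l
    have : Real.exp (-8 * (l + 1)) = Real.exp (-8) ^ (l + 1) := by
      rw [← Real.exp_nat_mul]
      congr 1
      push_cast
      ring
    calc _ ≤ Real.exp (-8 * (l + 1)) := by
          apply Real.exp_le_exp.2
          have hl : (0 : ℝ) ≤ l := by positivity
          have h8 : (8 : ℝ) ≤ 2 * π ^ 2 * n := by nlinarith
          have h9 : ((l : ℝ) + 1) ≤ (l + 1) ^ 2 := by nlinarith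
          have : 8 * ((l : ℝ) + 1) ≤ 2 * π ^ 2 * n * (l + 1) ^ 2 :=
            mul_le_mul h8 h9 (by positivity) (by positivity)
          linarith
      _ = Real.exp (-8) ^ (l + 1) := this
      _ ≤ _ := pow_le_pow_left₀ (Real.exp_pos _).le exp_neg_eight _
  have hg : HasSum (fun l : ℕ => (1 / 40 : ℝ) ^ (l + 1)) ((1 - 1 / 40 : ℝ)⁻¹ * (1 / 40)) := by
    have := hasSum_geometric_of_lt_one (r := (1 / 40 : ℝ)) (by norm_num) (by norm_num)
    have := (this.mul_right (1 / 40))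
    refine this.congr_fun fun l => ?_
    rw [pow_succ]
  have key1 : ∀ l : ℕ, f ((l + 1 : ℕ) : ℤ) ≤ (1 / 40) ^ (l + 1) := by
    intro l
    rw [hf]
    have := key l
    push_cast
    exact this
  have key2 : ∀ l : ℕ, f (-((l : ℤ) + 1)) ≤ (1 / 40) ^ (l + 1) := by
    intro l
    rw [hf]
    have := key l
    push_cast
    rw [show (-((l : ℝ) + 1)) ^ 2 = ((l : ℝ) + 1) ^ 2 by ring]
    exact this
  have key3 : f ((0 : ℕ) : ℤ) = 1 := by rw [hf]; simp
  clear hf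
  have e1 := tsum_of_nat_of_neg_add_one hs1 hs2
  have e2 := hs1.tsum_eq_zero_add
  have c1 : ∑' b : ℕ, f ((b + 1 : ℕ) : ℤ) ≤ (1 - 1 / 40 : ℝ)⁻¹ * (1 / 40) :=
    hasSum_le key1 ((summable_nat_add_iff 1).2 hs1).hasSum hg
  have c2 : ∑' l : ℕ, f (-((l : ℤ) + 1)) ≤ (1 - 1 / 40 : ℝ)⁻¹ * (1 / 40) :=
    hasSum_le key2 hs2.hasSum hg
  rw [e0, e1, e2, key3]
  norm_num at c1 c2 ⊢
  linarith

end Pool.Agent.H946R3
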