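import Pool.Agent.H946R3.WSum

open MeasureTheory ProbabilityTheory
open scoped Real NNReal

namespace Pool.Agent.H946R3

lemma Gt_neg (v : ℝ≥0) (hv : v ≠ 0) (u : ℝ) : Gt v (-u) = -Gt v u := by
  have h1 := Gt_hasSum_nat v hv (-u)
  have h2 := (Gt_hasSum_nat v hv u).neg
  refine h1.unique (h2.congr_fun fun i => ?_)
  rw [show π * (2 * (i : ℝ) + 1) * -u = -(π * (2 * i + 1) * u) by ring, Real.sin_neg]
  ring

lemma abs_Gt_le (v : ℝ≥0) (u : ℝ) : |Gt v u| ≤ 1 := by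
  unfold Gt
  rw [← Real.norm_eq_abs]
  refine (norm_integral_le_of_norm_le_const (C := 1) ?_).trans ?_
  · filter_upwards with y
    rw [Real.norm_eq_abs]
    exact abs_sq_le _
  · simp

lemma Gt_bound (v : ℝ≥0) (hv : v ≠ 0) (i : ℕ) (u : ℝ) :
    ‖4 / (π * (2 * i + 1)) * Real.exp (-(π ^ 2 * v / 2) * (2 * i + 1) ^ 2)
      * Real.sin (π * (2 * i + 1) * u)‖ ≤ (4 / π) * Real.exp (i * (-(π ^ 2 * v / 2))) := by
  have hv0 : (0 : ℝ) < v := by
    have : 0 < v := pos_iff_ne_zero.2 hv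
    exact_mod_cast this
  have hπ := Real.pi_pos
  have hi : (0 : ℝ) ≤ i := by positivity
  rw [norm_mul]
  have e1 : ‖Real.sin (π * (2 * i + 1) * u)‖ ≤ 1 := Real.abs_sin_le_one _
  refine (mul_le_of_le_one_right (norm_nonneg _) e1).trans ?_
  rw [Real.norm_of_nonneg (by positivity)]
  apply mul_le_mul _ _ (Real.exp_pos _).le (by positivity)
  · apply div_le_div_of_nonneg_left (by norm_num) hπ
    nlinarith
  · apply Real.exp_le_exp.2
    have h1 : 0 ≤ π ^ 2 * v / 2 := by positivity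
    have h2 : (i : ℝ) ≤ (2 * i + 1) ^ 2 := by nlinarith
    nlinarith [mul_le_mul_of_nonneg_left h2 h1]

lemma summable_Gt_bound (v : ℝ≥0) (hv : v ≠ 0) :
    Summable fun i : ℕ => (4 / π) * Real.exp (i * (-(π ^ 2 * v / 2))) := by
  have hv0 : (0 : ℝ) < v := by
    have : 0 < v := pos_iff_ne_zero.2 hv
    exact_mod_cast this
  apply Summable.mul_left
  apply Real.summable_exp_nat_mul_iff.2
  have h := Real.pi_pos
  have : 0 < π ^ 2 * (v : ℝ) / 2 := by positivity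
  linarith

lemma continuous_Gt (v : ℝ≥0) (hv : v ≠ 0) : Continuous (Gt v) := by
  have h : Gt v = fun u => ∑' i : ℕ, 4 / (π * (2 * i + 1))
      * Real.exp (-(π ^ 2 * v / 2) * (2 * i + 1) ^ 2) * Real.sin (π * (2 * i + 1) * u) := by
    ext u
    exact ((Gt_hasSum_nat v hv u).tsum_eq).symm
  rw [h]
  refine continuous_tsum (fun i => by fun_prop) (summable_Gt_bound v hv) fun i u => ?_
  exact Gt_bound v hv i u

lemma W_eq (n : ℕ) (hn : 3 ≤ n) {ρ : ℝ} (hρ : ρ ^ 2 < 1) (v : ℝ≥0)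
    (hv : (v : ℝ) = n * (1 - ρ ^ 2)) :
    ∑' m : ℤ, Real.cos (π * m) * Real.exp (-(1 / (2 * (n : ℝ))) * (m : ℝ) ^ 2)
      * Real.sin (2 * π * (m / n)) * Gt v (ρ * m)
      = -(√(2 * π * n) / 2) * ∑' i, CC n ρ i * DD n ρ i := by
  have hn' : (3 : ℝ) ≤ n := by exact_mod_cast hn
  have hv0 : v ≠ 0 := by
    have : 0 < (v : ℝ) := by
      rw [hv]
      have : 0 < 1 - ρ ^ 2 := by linarith
      positivity
    exact_mod_cast this.ne'
  have hCC : ∀ i : ℕ, 4 / (π * (2 * i + 1)) * Real.exp (-(π ^ 2 * v / 2) * (2 * i + 1) ^ 2)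
      = CC n ρ i := by
    intro i
    rw [hv, CC]
  have e1 : ∀ m : ℤ, Real.cos (π * m) * Real.exp (-(1 / (2 * (n : ℝ))) * (m : ℝ) ^ 2)
      * Real.sin (2 * π * (m / n)) * Gt v (ρ * m)
      = ∑' i : ℕ, CC n ρ i * (Real.cos (π * m) * Real.exp (-(1 / (2 * (n : ℝ))) * (m : ℝ) ^ 2)
      * Real.sin (2 * π * (m / n)) * Real.sin (π * (2 * i + 1) * (ρ * m))) := by
    intro m
    rw [← (Gt_hasSum_nat v hv0 (ρ * m)).tsum_eq, ← tsum_mul_left]
    congr 1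
    ext i
    rw [hCC]
    ring
  simp_rw [e1]
  have hsum : Summable (Function.uncurry fun (m : ℤ) (i : ℕ) =>
      CC n ρ i * (Real.cos (π * m) * Real.exp (-(1 / (2 * (n : ℝ))) * (m : ℝ) ^ 2)
      * Real.sin (2 * π * (m / n)) * Real.sin (π * (2 * i + 1) * (ρ * m)))) := by
    have h1 : Summable fun m : ℤ => Real.exp (-(1 / (2 * (n : ℝ))) * (m : ℝ) ^ 2) :=
      summable_gauss0 (by positivity)
    have h2 := h1.mul_of_nonneg (summable_CC n hn hρ) (fun _ => (Real.exp_pos _).le)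
      (fun i => (CC_pos n ρ i).le)
    refine Summable.of_norm_bounded h2 fun p => ?_
    obtain ⟨m, i⟩ := p
    simp only [Function.uncurry]
    rw [norm_mul, norm_mul, norm_mul, norm_mul, Real.norm_of_nonneg (CC_pos n ρ i).le,
      Real.norm_of_nonneg (Real.exp_pos _).le]
    have a1 : ‖Real.cos (π * m)‖ ≤ 1 := Real.abs_cos_le_one _
    have a2 : ‖Real.sin (2 * π * (m / n))‖ ≤ 1 := Real.abs_sin_le_one _
    have a3 : ‖Real.sin (π * (2 * i + 1) * (ρ * m))‖ ≤ 1 := Real.abs_sin_le_one _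
    have hC := (CC_pos n ρ i).le
    set E := Real.exp (-(1 / (2 * (n : ℝ))) * (m : ℝ) ^ 2)
    have hE : 0 ≤ E := (Real.exp_pos _).le
    calc CC n ρ i * (‖Real.cos (π * m)‖ * E * ‖Real.sin (2 * π * (m / n))‖
          * ‖Real.sin (π * (2 * i + 1) * (ρ * m))‖)
        ≤ CC n ρ i * (1 * E * 1 * 1) := by
          apply mul_le_mul_of_nonneg_left _ hC
          gcongr
      _ = E * CC n ρ i := by ring
  rw [← Summable.tsum_comm hsum, ← tsum_mul_left]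
  congr 1
  ext i
  rw [tsum_mul_left, inner_sum n (by omega) ρ i, DD]
  ring

lemma W_neg (n : ℕ) (hn : 3 ≤ n) {ρ : ℝ} (h0 : 1 / 2 < ρ) (h1 : ρ < 1) (v : ℝ≥0)
    (hv : (v : ℝ) = n * (1 - ρ ^ 2)) :
    ∑' m : ℤ, Real.cos (π * m) * Real.exp (-(1 / (2 * (n : ℝ))) * (m : ℝ) ^ 2)
      * Real.sin (2 * π * (m / n)) * Gt v (ρ * m) < 0 := by
  have hn' : (3 : ℝ) ≤ n := by exact_mod_cast hn
  rw [W_eq n hn (by nlinarith) v hv]
  have h := T_pos n hn h0 h1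
  have hs : (0 : ℝ) < √(2 * π * n) := Real.sqrt_pos.2 (by positivity)
  have : 0 < (√(2 * π * n) / 2) * ∑' i, CC n ρ i * DD n ρ i := by positivity
  linarith

/-- The weighted profile. -/
noncomputable def psi (n : ℕ) (ρ : ℝ) (v : ℝ≥0) (s : ℝ) : ℝ :=
  Gt v (ρ * s) * (1 + cc n * Real.sin (2 * π * (s / n))) * gaussianPDFReal 0 n s

lemma cc_pos (n : ℕ) : 0 < cc n := Real.exp_pos _

lemma cc_le_one (n : ℕ) (hn : 0 < n) : cc n ≤ 1 := by
  have hn' : (1 : ℝ) ≤ n := by exact_mod_cast hn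
  unfold cc
  rw [Real.exp_le_one_iff]
  have : (1 : ℝ) / n ≤ 1 := by
    rw [div_le_one (by linarith)]; exact hn'
  have : 0 ≤ 2 * π ^ 2 * (1 - 1 / (n : ℝ)) := by
    have : 0 ≤ 1 - 1 / (n : ℝ) := by linarith
    positivity
  linarith

lemma abs_psi_le (n : ℕ) (hn : 0 < n) (ρ : ℝ) (v : ℝ≥0) (s : ℝ) :
    |psi n ρ v s| ≤ 2 * gaussianPDFReal 0 n s := by
  unfold psi
  rw [abs_mul, abs_of_nonneg (gaussianPDFReal_nonneg 0 n s)]
  apply mul_le_mul_of_nonneg_right _ (gaussianPDFReal_nonneg 0 n s)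
  rw [abs_mul]
  have h1 := abs_Gt_le v (ρ * s)
  have h2 : |1 + cc n * Real.sin (2 * π * (s / n))| ≤ 2 := by
    have h3 : |cc n * Real.sin (2 * π * (s / n))| ≤ 1 := by
      rw [abs_mul, abs_of_pos (cc_pos n)]
      exact mul_le_one₀ (cc_le_one n hn) (abs_nonneg _) (Real.abs_sin_le_one _)
    have := abs_le.1 h3
    rw [abs_le]
    constructor <;> linarith
  calc _ ≤ 1 * 2 := mul_le_mul h1 h2 (abs_nonneg _) zero_le_one
    _ = 2 := by norm_num

lemma continuous_pdf (n : ℕ) : Continuous (gaussianPDFReal 0 (n : ℝ≥0)) := by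
  have : gaussianPDFReal 0 (n : ℝ≥0) = fun x => (√(2 * π * (n : ℝ≥0)))⁻¹
      * Real.exp (-(1 / (2 * (((n : ℝ≥0) : ℝ)))) * x ^ 2) := by
    ext x
    exact pdf_eq _ x
  rw [this]
  fun_prop

lemma continuous_psi (n : ℕ) (ρ : ℝ) (v : ℝ≥0) (hv : v ≠ 0) : Continuous (psi n ρ v) := by
  unfold psi
  exact (((continuous_Gt v hv).comp (by fun_prop)).mul (by fun_prop)).mul (continuous_pdf n)

lemma integrable_psi (n : ℕ) (hn : 0 < n) (ρ : ℝ) (v : ℝ≥0) (hv : v ≠ 0) :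
    Integrable (psi n ρ v) := by
  refine ((integrable_gaussianPDFReal 0 n).const_mul 2).mono'
    (continuous_psi n ρ v hv).aestronglyMeasurable ?_
  filter_upwards with s
  rw [Real.norm_eq_abs]
  exact abs_psi_le n hn ρ v s

/-- uniform summable bound for `psi (x + m)`, `|x| ≤ 1`. -/
lemma psi_bound (n : ℕ) (hn : 0 < n) (ρ : ℝ) (v : ℝ≥0) (m : ℤ) {x : ℝ} (hx : |x| ≤ 1) :
    ‖Real.cos (π * m) * psi n ρ v (x + m)‖ ≤ 2 * ((√(2 * π * n))⁻¹ *
      (Real.exp (1 / (2 * (n : ℝ)) * (1 + 1 / 4)) * Real.exp (-(1 / (2 * (n : ℝ))) * |(m : ℝ)|))) := by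
  have hn' : (0 : ℝ) < n := by exact_mod_cast hn
  have hc : (0 : ℝ) < 1 / (2 * (n : ℝ)) := by positivity
  rw [norm_mul]
  have e1 : ‖Real.cos (π * m)‖ ≤ 1 := Real.abs_cos_le_one _
  refine (mul_le_of_le_one_left (norm_nonneg _) e1).trans ?_
  rw [Real.norm_eq_abs]
  refine (abs_psi_le n hn ρ v _).trans ?_
  apply mul_le_mul_of_nonneg_left _ (by norm_num)
  rw [pdf_eq]
  have e2 : (((n : ℝ≥0)) : ℝ) = n := by simp
  rw [e2]
  apply mul_le_mul_of_nonneg_left _ (by positivity)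
  rw [add_comm x]
  refine (gauss_le_exp_abs hc x m).trans ?_
  apply mul_le_mul_of_nonneg_right _ (Real.exp_pos _).le
  apply Real.exp_le_exp.2
  apply mul_le_mul_of_nonneg_left _ hc.le
  linarith

lemma summable_psi_bound (n : ℕ) (hn : 0 < n) : Summable fun m : ℤ => 2 * ((√(2 * π * n))⁻¹ *
      (Real.exp (1 / (2 * (n : ℝ)) * (1 + 1 / 4))
        * Real.exp (-(1 / (2 * (n : ℝ))) * |(m : ℝ)|))) := by
  have hn' : (0 : ℝ) < n := by exact_mod_cast hn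
  exact (((summable_exp_abs (by positivity)).mul_left _).mul_left _).mul_left _

/-- The folded profile. -/
noncomputable def FF (n : ℕ) (ρ : ℝ) (v : ℝ≥0) (x : ℝ) : ℝ :=
  ∑' m : ℤ, Real.cos (π * m) * psi n ρ v (x + m)

lemma continuousOn_FF (n : ℕ) (hn : 0 < n) (ρ : ℝ) (v : ℝ≥0) (hv : v ≠ 0) :
    ContinuousOn (FF n ρ v) (Set.Icc (-1) 1) := by
  unfold FF
  refine continuousOn_tsum (fun m => ?_) (summable_psi_bound n hn) fun m x hx => ?_
  · exact (continuous_const.mul ((continuous_psi n ρ v hv).comp (by fun_prop))).continuousOn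
  · exact psi_bound n hn ρ v m (abs_le.2 hx)

lemma FF_zero_neg (n : ℕ) (hn : 3 ≤ n) {ρ : ℝ} (h0 : 1 / 2 < ρ) (h1 : ρ < 1) (v : ℝ≥0)
    (hv : (v : ℝ) = n * (1 - ρ ^ 2)) : FF n ρ v 0 < 0 := by
  have hn' : (3 : ℝ) ≤ n := by exact_mod_cast hn
  have hρ2 : ρ ^ 2 < 1 := by nlinarith
  have hv0 : v ≠ 0 := by
    have : 0 < (v : ℝ) := by
      rw [hv]
      have : 0 < 1 - ρ ^ 2 := by linarith
      positivity
    exact_mod_cast this.ne'
  have hs : (0 : ℝ) < √(2 * π * n) := Real.sqrt_pos.2 (by positivity)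
  have e2 : (((n : ℝ≥0)) : ℝ) = n := by simp
  have hodd : ∑' m : ℤ, Real.exp (-(1 / (2 * (n : ℝ))) * (m : ℝ) ^ 2)
      * (Real.cos (π * m) * Gt v (ρ * m)) = 0 := by
    have h := (Equiv.neg ℤ).tsum_eq (fun m : ℤ => Real.exp (-(1 / (2 * (n : ℝ))) * (m : ℝ) ^ 2)
      * (Real.cos (π * m) * Gt v (ρ * m)))
    have h2 : ∀ m : ℤ, (fun m : ℤ => Real.exp (-(1 / (2 * (n : ℝ))) * (m : ℝ) ^ 2)
      * (Real.cos (π * m) * Gt v (ρ * m))) (Equiv.neg ℤ m)
        = -(Real.exp (-(1 / (2 * (n : ℝ))) * (m : ℝ) ^ 2) * (Real.cos (π * m) * Gt v (ρ * m))) := by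
      intro m
      simp only [Equiv.neg_apply]
      push_cast
      rw [show ρ * -(m : ℝ) = -(ρ * m) by ring, Gt_neg v hv0,
        show π * -(m : ℝ) = -(π * m) by ring, Real.cos_neg]
      ring_nf
    simp_rw [h2] at h
    rw [tsum_neg] at h
    linarith
  have e3 : ∀ m : ℤ, Real.cos (π * m) * psi n ρ v (0 + m)
      = (√(2 * π * n))⁻¹ * (Real.exp (-(1 / (2 * (n : ℝ))) * (m : ℝ) ^ 2)
          * (Real.cos (π * m) * Gt v (ρ * m))
        + cc n * (Real.cos (π * m) * Real.exp (-(1 / (2 * (n : ℝ))) * (m : ℝ) ^ 2)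
      * Real.sin (2 * π * (m / n)) * Gt v (ρ * m))) := by
    intro m
    rw [zero_add, psi, pdf_eq, e2]

    ring
  have hb : ∀ m : ℤ, |Real.cos (π * m) * Gt v (ρ * m)| ≤ 1 := by
    intro m
    rw [abs_mul]
    exact mul_le_one₀ (Real.abs_cos_le_one _) (abs_nonneg _) (abs_Gt_le _ _)
  have hb2 : ∀ m : ℤ, |Real.cos (π * m) * Gt v (ρ * m) * Real.sin (2 * π * (m / n))| ≤ 1 := by
    intro m
    rw [abs_mul]
    exact mul_le_one₀ (hb m) (abs_nonneg _) (Real.abs_sin_le_one _)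
  have hs1 := summable_gauss_cos n (by omega) (fun m : ℤ => Real.cos (π * m) * Gt v (ρ * m)) hb
  have hs2 := summable_gauss_cos n (by omega)
    (fun m : ℤ => Real.cos (π * m) * Gt v (ρ * m) * Real.sin (2 * π * (m / n))) hb2
  have hs2' : Summable fun m : ℤ => Real.cos (π * m) * Real.exp (-(1 / (2 * (n : ℝ))) * (m : ℝ) ^ 2)
      * Real.sin (2 * π * (m / n)) * Gt v (ρ * m) := by
    refine hs2.congr fun m => ?_
    ring
  unfold FF
  simp_rw [e3]
  rw [tsum_mul_left, hs1.tsum_add (hs2'.mul_left _), tsum_mul_left, hodd, zero_add]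
  have hW := W_neg n hn h0 h1 v hv
  have : cc n * ∑' m : ℤ, Real.cos (π * m) * Real.exp (-(1 / (2 * (n : ℝ))) * (m : ℝ) ^ 2)
      * Real.sin (2 * π * (m / n)) * Gt v (ρ * m) < 0 := mul_neg_of_pos_of_neg (cc_pos n) hW
  exact mul_neg_of_pos_of_neg (by positivity) this

lemma exists_delta (n : ℕ) (hn : 3 ≤ n) {ρ : ℝ} (h0 : 1 / 2 < ρ) (h1 : ρ < 1) (v : ℝ≥0)
    (hv : (v : ℝ) = n * (1 - ρ ^ 2)) :
    ∃ δ : ℝ, 0 < δ ∧ δ < 1 ∧ ∫ x in (0 : ℝ)..δ, FF n ρ v x < 0 := by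
  have hn' : (3 : ℝ) ≤ n := by exact_mod_cast hn
  have hρ2 : ρ ^ 2 < 1 := by nlinarith
  have hv0 : v ≠ 0 := by
    have : 0 < (v : ℝ) := by
      rw [hv]
      have : 0 < 1 - ρ ^ 2 := by linarith
      positivity
    exact_mod_cast this.ne'
  have hc := continuousOn_FF n (by omega) ρ v hv0
  have hca : ContinuousAt (FF n ρ v) 0 := hc.continuousAt (Icc_mem_nhds (by norm_num) (by norm_num))
  have hneg := FF_zero_neg n hn h0 h1 v hv
  have hev : ∀ᶠ x in nhds (0 : ℝ), FF n ρ v x < 0 := hca.eventually_lt_const hneg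
  obtain ⟨ε, hε, hball⟩ := Metric.eventually_nhds_iff.1 hev
  refine ⟨min (ε / 2) (1 / 2), by positivity, lt_of_le_of_lt (min_le_right _ _) (by norm_num), ?_⟩
  set δ := min (ε / 2) (1 / 2) with hδ
  have hδ0 : 0 < δ := by positivity
  have hδ1 : δ ≤ 1 / 2 := min_le_right _ _
  have hδ2 : δ ≤ ε / 2 := min_le_left _ _
  have hcon : ContinuousOn (fun x => -FF n ρ v x) (Set.Icc 0 δ) := by
    apply ContinuousOn.neg
    apply hc.mono
    intro x hx
    exact ⟨by linarith [hx.1], by linarith [hx.2]⟩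
  have hpos : ∀ x ∈ Set.Ioc (0 : ℝ) δ, 0 ≤ -FF n ρ v x := by
    intro x hx
    have : FF n ρ v x < 0 := by
      apply hball
      rw [Real.dist_eq, sub_zero, abs_of_pos hx.1]
      linarith [hx.2]
    linarith
  have hp0 : ∃ c ∈ Set.Icc (0 : ℝ) δ, 0 < -FF n ρ v c :=
    ⟨0, ⟨le_refl _, hδ0.le⟩, by linarith⟩
  have := intervalIntegral.integral_pos hδ0 hcon hpos hp0
  rw [intervalIntegral.integral_neg] at this
  linarith

end Pool.Agent.H946R3
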