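import Pool.Agent.H946R3.Fourier2

open MeasureTheory ProbabilityTheory
open scoped Real NNReal

namespace Pool.Agent.H946R3

lemma cos_shift (m : ℤ) (i : ℕ) (β : ℝ) :
    Real.cos (π * m) * Real.cos (π * m * β) = Real.cos (π * m * (β - (2 * i + 1))) := by
  have h1 : Real.cos (π * m * (2 * i + 1)) = Real.cos (π * m) := by
    have : π * m * (2 * i + 1) = π * m + ((m * i : ℤ) : ℝ) * (2 * π) := by push_cast; ring
    rw [this, Real.cos_add_int_mul_two_pi]
  have h2 : Real.sin (π * m * (2 * i + 1)) = 0 := by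
    have : π * m * (2 * i + 1) = ((m * (2 * i + 1) : ℤ) : ℝ) * π := by push_cast; ring
    rw [this, Real.sin_int_mul_pi]
  rw [mul_sub, Real.cos_sub, h1, h2]
  ring

lemma summable_gauss_cos (n : ℕ) (hn : 0 < n) (f : ℤ → ℝ) (hf : ∀ m, |f m| ≤ 1) :
    Summable fun m : ℤ => Real.exp (-(1 / (2 * (n : ℝ))) * (m : ℝ) ^ 2) * f m := by
  have hn' : (0 : ℝ) < n := by exact_mod_cast hn
  refine Summable.of_norm_bounded (summable_gauss0 (c := 1 / (2 * (n : ℝ))) (by positivity))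
    fun m => ?_
  rw [norm_mul, Real.norm_eq_abs, Real.norm_eq_abs, Real.abs_exp]
  exact mul_le_of_le_one_right (Real.exp_pos _).le (hf m)

lemma inner_sum (n : ℕ) (hn : 0 < n) (ρ : ℝ) (i : ℕ) :
    ∑' m : ℤ, Real.cos (π * m) * Real.exp (-(1 / (2 * (n : ℝ))) * (m : ℝ) ^ 2)
      * Real.sin (2 * π * (m / n)) * Real.sin (π * (2 * i + 1) * (ρ * m))
      = -(√(2 * π * n) / 2) * (th n ((2 * i + 1) * (1 - ρ) - 2 / n)
          - th n ((2 * i + 1) * (1 - ρ) + 2 / n)) := by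
  have h1 := th_eq n hn ((2 * i + 1) * (1 - ρ) + 2 / n)
  have h2 := th_eq n hn ((2 * i + 1) * (1 - ρ) - 2 / n)
  have e : ∀ m : ℤ, Real.cos (π * m) * Real.exp (-(1 / (2 * (n : ℝ))) * (m : ℝ) ^ 2)
      * Real.sin (2 * π * (m / n)) * Real.sin (π * (2 * i + 1) * (ρ * m))
      = (1 / 2) * (Real.exp (-(1 / (2 * (n : ℝ))) * (m : ℝ) ^ 2)
            * Real.cos (π * ((2 * i + 1) * (1 - ρ) + 2 / n) * m)
          - Real.exp (-(1 / (2 * (n : ℝ))) * (m : ℝ) ^ 2)
            * Real.cos (π * ((2 * i + 1) * (1 - ρ) - 2 / n) * m)) := by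
    intro m
    have c1 : Real.cos (π * ((2 * i + 1) * (1 - ρ) + 2 / n) * m)
        = Real.cos (π * m) * Real.cos (π * m * ((2 * i + 1) * ρ - 2 / n)) := by
      rw [cos_shift m i, ← Real.cos_neg]
      congr 1
      ring
    have c2 : Real.cos (π * ((2 * i + 1) * (1 - ρ) - 2 / n) * m)
        = Real.cos (π * m) * Real.cos (π * m * ((2 * i + 1) * ρ + 2 / n)) := by
      rw [cos_shift m i, ← Real.cos_neg]
      congr 1
      ring
    have c3 : Real.cos (π * m * ((2 * i + 1) * ρ - 2 / n))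
        = Real.cos (π * (2 * i + 1) * (ρ * m)) * Real.cos (2 * π * (m / n))
          + Real.sin (π * (2 * i + 1) * (ρ * m)) * Real.sin (2 * π * (m / n)) := by
      rw [← Real.cos_sub]
      congr 1
      ring
    have c4 : Real.cos (π * m * ((2 * i + 1) * ρ + 2 / n))
        = Real.cos (π * (2 * i + 1) * (ρ * m)) * Real.cos (2 * π * (m / n))
          - Real.sin (π * (2 * i + 1) * (ρ * m)) * Real.sin (2 * π * (m / n)) := by
      rw [← Real.cos_add]
      congr 1
      ring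
    rw [c1, c2, c3, c4]
    ring
  simp_rw [e]
  rw [tsum_mul_left, Summable.tsum_sub, h1, h2]
  · ring
  · exact summable_gauss_cos n hn _ fun m => Real.abs_cos_le_one _
  · exact summable_gauss_cos n hn _ fun m => Real.abs_cos_le_one _

/-- The coefficients. -/
noncomputable def CC (n : ℕ) (ρ : ℝ) (i : ℕ) : ℝ :=
  4 / (π * (2 * i + 1)) * Real.exp (-(π ^ 2 * (n * (1 - ρ ^ 2)) / 2) * (2 * i + 1) ^ 2)

lemma CC_pos (n : ℕ) (ρ : ℝ) (i : ℕ) : 0 < CC n ρ i := by
  unfold CC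
  have := Real.pi_pos
  positivity

lemma CC_le (n : ℕ) (hn : 3 ≤ n) {ρ : ℝ} (hρ : ρ ^ 2 < 1) (i : ℕ) :
    CC n ρ i ≤ (4 / π) * Real.exp (i * (-(π ^ 2 * (n * (1 - ρ ^ 2)) / 2))) := by
  have hn' : (3 : ℝ) ≤ n := by exact_mod_cast hn
  have hπ := Real.pi_pos
  unfold CC
  apply mul_le_mul _ _ (Real.exp_pos _).le (by positivity)
  · apply div_le_div_of_nonneg_left (by norm_num) hπ
    have : (0 : ℝ) ≤ i := by positivity
    nlinarith
  · apply Real.exp_le_exp.2
    have h1 : 0 ≤ π ^ 2 * (n * (1 - ρ ^ 2)) / 2 := by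
      have : 0 ≤ 1 - ρ ^ 2 := by linarith
      positivity
    have h2 : (i : ℝ) ≤ (2 * i + 1) ^ 2 := by
      have : (0 : ℝ) ≤ i := by positivity
      nlinarith
    nlinarith [mul_le_mul_of_nonneg_left h2 h1]

lemma summable_CC (n : ℕ) (hn : 3 ≤ n) {ρ : ℝ} (hρ : ρ ^ 2 < 1) : Summable (CC n ρ) := by
  have hn' : (3 : ℝ) ≤ n := by exact_mod_cast hn
  refine Summable.of_nonneg_of_le (fun i => (CC_pos n ρ i).le) (fun i => CC_le n hn hρ i) ?_
  apply Summable.mul_left
  apply Real.summable_exp_nat_mul_iff.2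
  have : 0 < 1 - ρ ^ 2 := by linarith
  have h := Real.pi_pos
  have : 0 < π ^ 2 * (n * (1 - ρ ^ 2)) / 2 := by positivity
  linarith

/-- The differences of theta values. -/
noncomputable def DD (n : ℕ) (ρ : ℝ) (i : ℕ) : ℝ :=
  th n ((2 * i + 1) * (1 - ρ) - 2 / n) - th n ((2 * i + 1) * (1 - ρ) + 2 / n)

lemma abs_DD_le (n : ℕ) (hn : 3 ≤ n) (ρ : ℝ) (i : ℕ) : |DD n ρ i| ≤ 2 := by
  have h0 := th_zero_le n hn
  have a1 := th_le n (by omega) ((2 * i + 1) * (1 - ρ) - 2 / n)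
  have a2 := th_le n (by omega) ((2 * i + 1) * (1 - ρ) + 2 / n)
  have b1 := th_nonneg n ((2 * i + 1) * (1 - ρ) - 2 / n)
  have b2 := th_nonneg n ((2 * i + 1) * (1 - ρ) + 2 / n)
  unfold DD
  rw [abs_le]
  constructor <;> linarith

lemma summable_CC_DD (n : ℕ) (hn : 3 ≤ n) {ρ : ℝ} (hρ : ρ ^ 2 < 1) :
    Summable fun i => CC n ρ i * DD n ρ i := by
  refine Summable.of_norm_bounded ((summable_CC n hn hρ).mul_right 2) fun i => ?_
  rw [norm_mul, Real.norm_eq_abs, Real.norm_eq_abs, abs_of_pos (CC_pos n ρ i)]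
  exact mul_le_mul_of_nonneg_left (abs_DD_le n hn ρ i) (CC_pos n ρ i).le

lemma tail_term (n : ℕ) (hn : 3 ≤ n) {ρ : ℝ} (h0 : 1 / 2 < ρ) (h1 : ρ < 1) (i : ℕ) :
    -((16 / π) * (1 - ρ) * Real.exp (-(π ^ 2 * n * (1 - ρ))) * Real.exp (-15) * (1 / 40) ^ i)
      ≤ CC n ρ (i + 1) * DD n ρ (i + 1) := by
  have hn' : (3 : ℝ) ≤ n := by exact_mod_cast hn
  have hπ := Real.pi_pos
  have hpi : 9 < π ^ 2 := by nlinarith [Real.pi_gt_three]
  set η := 1 - ρ with hη
  have hη0 : 0 < η := by linarith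
  have hη1 : η < 1 / 2 := by linarith
  set J : ℝ := 2 * ((i + 1 : ℕ) : ℝ) + 1 with hJ
  have hJi : J = 2 * i + 3 := by rw [hJ]; push_cast; ring
  have hi0 : (0 : ℝ) ≤ i := by positivity
  have hJ3 : 3 ≤ J := by rw [hJi]; linarith
  have hneg : -((16 / π) * η * Real.exp (-(π ^ 2 * n * η)) * Real.exp (-15) * (1 / 40) ^ i) ≤ 0 := by
    have : 0 ≤ (16 / π) * η * Real.exp (-(π ^ 2 * n * η)) * Real.exp (-15) * (1 / 40) ^ i := by
      positivity
    linarith
  by_cases hc : J * η ≤ 1 / 2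
  · have hD : 0 ≤ DD n ρ (i + 1) := by
      unfold DD
      exact D_nonneg n hn (by positivity) hc
    exact hneg.trans (mul_nonneg (CC_pos n ρ _).le hD)
  · push Not at hc
    have hC : CC n ρ (i + 1) ≤ (8 / π) * η * Real.exp (-(π ^ 2 * n * η)) * Real.exp (-15)
        * (1 / 40) ^ i := by
      have e1 : CC n ρ (i + 1) = 4 / (π * J) * Real.exp (-(π ^ 2 * (n * (1 - ρ ^ 2)) / 2) * J ^ 2) :=
        rfl
      rw [e1]
      have e2 : 1 - ρ ^ 2 = η * (2 - η) := by rw [hη]; ring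
      rw [e2]
      have c1 : 4 / (π * J) ≤ (8 / π) * η := by
        rw [div_le_iff₀ (by positivity)]
        have : (8 / π) * η * (π * J) = 8 * (J * η) := by
          field_simp
        rw [this]
        linarith
      have c2 : Real.exp (-(π ^ 2 * (n * (η * (2 - η))) / 2) * J ^ 2)
          ≤ Real.exp (-(π ^ 2 * n * η)) * Real.exp (-15) * (1 / 40) ^ i := by
        have c3 : Real.exp (-10) ≤ 1 / 40 :=
          (Real.exp_le_exp.2 (by norm_num)).trans exp_neg_eight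
        have c4 : Real.exp (-10) ^ i ≤ (1 / 40) ^ i :=
          pow_le_pow_left₀ (Real.exp_pos _).le c3 i
        refine le_trans ?_ (mul_le_mul_of_nonneg_left c4 (by positivity))
        rw [← Real.exp_nat_mul, ← Real.exp_add, ← Real.exp_add]
        apply Real.exp_le_exp.2
        have d1 : 3 / 2 ≤ 2 - η := by linarith
        have hJ2 : 9 ≤ J ^ 2 := by nlinarith
        have d2 : π ^ 2 * n * η * (3 / 4) * J ^ 2 ≤ π ^ 2 * (n * (η * (2 - η))) / 2 * J ^ 2 := by
          have : π ^ 2 * n * η * (3 / 4) ≤ π ^ 2 * (n * (η * (2 - η))) / 2 := by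
            have := mul_le_mul_of_nonneg_left d1 (show 0 ≤ π ^ 2 * n * η by positivity)
            linarith
          exact mul_le_mul_of_nonneg_right this (by positivity)
        have d3 : π ^ 2 * n * η ≤ π ^ 2 * n * η * (3 / 8) * J ^ 2 := by
          have := mul_le_mul_of_nonneg_left hJ2 (show 0 ≤ π ^ 2 * n * η * (3 / 8) by positivity)
          have h3 : 0 ≤ π ^ 2 * n * η := by positivity
          linarith
        have d4 : 5 * J ≤ π ^ 2 * n * η * (3 / 8) * J ^ 2 := by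
          have f1 : 27 ≤ π ^ 2 * n := by nlinarith
          have f2 : (27 : ℝ) * (1 / 2) ≤ (π ^ 2 * n) * (J * η) :=
            mul_le_mul f1 hc.le (by norm_num) (by positivity)
          have f3 : π ^ 2 * n * η * (3 / 8) * J ^ 2 = (π ^ 2 * n) * (J * η) * (3 / 8) * J := by ring
          rw [f3]
          apply mul_le_mul_of_nonneg_right _ (by positivity)
          linarith
        have d5 : 5 * J = 15 + i * 10 := by rw [hJi]; ring
        linarith
      calc _ ≤ ((8 / π) * η) * (Real.exp (-(π ^ 2 * n * η)) * Real.exp (-15) * (1 / 40) ^ i) :=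
            mul_le_mul c1 c2 (Real.exp_pos _).le (by positivity)
        _ = _ := by ring
    have hD := abs_le.1 (abs_DD_le n hn ρ (i + 1))
    have hCp := CC_pos n ρ (i + 1)
    have g1 : CC n ρ (i + 1) * (-2) ≤ CC n ρ (i + 1) * DD n ρ (i + 1) :=
      mul_le_mul_of_nonneg_left hD.1 hCp.le
    have g2 : (16 / π) * η * Real.exp (-(π ^ 2 * n * η)) * Real.exp (-15) * (1 / 40) ^ i
        = 2 * ((8 / π) * η * Real.exp (-(π ^ 2 * n * η)) * Real.exp (-15) * (1 / 40) ^ i) := by ring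
    rw [g2]
    linarith

lemma T_pos (n : ℕ) (hn : 3 ≤ n) {ρ : ℝ} (h0 : 1 / 2 < ρ) (h1 : ρ < 1) :
    0 < ∑' i, CC n ρ i * DD n ρ i := by
  have hn' : (3 : ℝ) ≤ n := by exact_mod_cast hn
  have hπ := Real.pi_pos
  have hpi : 9 < π ^ 2 := by nlinarith [Real.pi_gt_three]
  have hpi2 : π ^ 2 < 10 := by nlinarith [Real.pi_lt_d2]
  have hρ2 : ρ ^ 2 < 1 := by nlinarith
  have hs := summable_CC_DD n hn hρ2
  rw [hs.tsum_eq_zero_add]
  set η := 1 - ρ with hη
  have hη0 : 0 < η := by linarith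
  have hη1 : η < 1 / 2 := by linarith
  have hg : HasSum (fun i : ℕ => -((16 / π) * η * Real.exp (-(π ^ 2 * n * η)) * Real.exp (-15)
      * (1 / 40) ^ i)) (-((16 / π) * η * Real.exp (-(π ^ 2 * n * η)) * Real.exp (-15)
        * (1 - 1 / 40 : ℝ)⁻¹)) := by
    have := hasSum_geometric_of_lt_one (r := (1 / 40 : ℝ)) (by norm_num) (by norm_num)
    exact (this.mul_left _).neg
  have tail : -((16 / π) * η * Real.exp (-(π ^ 2 * n * η)) * Real.exp (-15)
        * (1 - 1 / 40 : ℝ)⁻¹) ≤ ∑' i, CC n ρ (i + 1) * DD n ρ (i + 1) :=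
    hasSum_le (fun i => tail_term n hn h0 h1 i) hg ((summable_nat_add_iff 1).2 hs).hasSum
  have main : (4 / π) * (19 / 10) * Real.exp (-(π ^ 2 * n * η)) * (Real.exp (-7) * (18 * η))
      ≤ CC n ρ 0 * DD n ρ 0 := by
    have hd := D_lower n hn hη0.le hη1.le
    have e1 : CC n ρ 0 = (4 / π) * Real.exp (-(π ^ 2 * n * η) + (π ^ 2 * n / 2) * η ^ 2) := by
      unfold CC
      congr 1
      · simp
      · congr 1
        rw [hη]
        push_cast
        ring
    have e2 : DD n ρ 0 = th n (η - 2 / n) - th n (η + 2 / n) := by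
      unfold DD
      simp [hη]
    rw [e1, e2]
    have k1 : Real.exp (-7) ≤ Real.exp (-(2 * π ^ 2 / n)) := by
      apply Real.exp_le_exp.2
      have : 2 * π ^ 2 / n ≤ 7 := by
        rw [div_le_iff₀ (by linarith)]
        linarith
      linarith
    have k2 : 18 * η ≤ Real.sinh (2 * π ^ 2 * η) := by
      have : 2 * π ^ 2 * η ≤ Real.sinh (2 * π ^ 2 * η) := Real.self_le_sinh_iff.2 (by positivity)
      nlinarith
    have k3 : Real.exp (-7) * (18 * η) ≤ Real.exp (-(2 * π ^ 2 / n)) * Real.sinh (2 * π ^ 2 * η) :=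
      mul_le_mul k1 k2 (by positivity) (Real.exp_pos _).le
    calc _ ≤ (4 / π) * (19 / 10) * Real.exp (-(π ^ 2 * n * η)) *
          (Real.exp (-(2 * π ^ 2 / n)) * Real.sinh (2 * π ^ 2 * η)) :=
          mul_le_mul_of_nonneg_left k3 (by positivity)
      _ = (4 / π) * Real.exp (-(π ^ 2 * n * η) + (π ^ 2 * n / 2) * η ^ 2) *
          ((19 / 10) * Real.exp (-(π ^ 2 * n / 2) * η ^ 2) * (Real.exp (-(2 * π ^ 2 / n))
            * Real.sinh (2 * π ^ 2 * η))) := by
          have : Real.exp (-(π ^ 2 * n * η)) = Real.exp (-(π ^ 2 * n * η) + (π ^ 2 * n / 2) * η ^ 2)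
            * Real.exp (-(π ^ 2 * n / 2) * η ^ 2) := by
            rw [← Real.exp_add]
            congr 1
            ring
          rw [this]
          ring
      _ ≤ _ := mul_le_mul_of_nonneg_left hd (by positivity)
  have k4 : Real.exp (-15) ≤ Real.exp (-7) := Real.exp_le_exp.2 (by norm_num)
  have k5 : 0 < (1 / π) * η * Real.exp (-(π ^ 2 * n * η)) * Real.exp (-7) := by positivity
  have k6 : (16 / π) * η * Real.exp (-(π ^ 2 * n * η)) * Real.exp (-15) * (1 - 1 / 40 : ℝ)⁻¹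
      ≤ 17 * ((1 / π) * η * Real.exp (-(π ^ 2 * n * η)) * Real.exp (-7)) := by
    have : (16 / π) * η * Real.exp (-(π ^ 2 * n * η)) * Real.exp (-15) * (1 - 1 / 40 : ℝ)⁻¹
        = (16 * (1 - 1 / 40 : ℝ)⁻¹) * ((1 / π) * η * Real.exp (-(π ^ 2 * n * η)) * Real.exp (-15)) := by
      ring
    rw [this]
    apply mul_le_mul (by norm_num) _ (by positivity) (by norm_num)
    exact mul_le_mul_of_nonneg_left k4 (by positivity)
  have k7 : (4 / π) * (19 / 10) * Real.exp (-(π ^ 2 * n * η)) * (Real.exp (-7) * (18 * η))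
      = (4 * (19 / 10) * 18) * ((1 / π) * η * Real.exp (-(π ^ 2 * n * η)) * Real.exp (-7)) := by
    ring
  rw [k7] at main
  linarith

end Pool.Agent.H946R3
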